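import Pool.Agent.MP_3d209c_an.H71.Defs

/-! Thin cones and the three explicit types of operators. -/

namespace Pool.Agent.MP_3d209c_an.H69

open MvPolynomial Pool.Agent.MP_3d209c_an.H71

variable {n m : ℕ}

/-- The slopes `(b · e) / (a · e)` of the vectors `e` of `V`. -/
def Slopes (V : Set (Fin n → ℝ)) (a b : Fin n → ℝ) : Set ℝ :=
  {t | ∃ e ∈ V, a ⬝ᵥ e ≠ 0 ∧ t = (b ⬝ᵥ e) / (a ⬝ᵥ e)}

/-- No two sets of slopes cover an interval. -/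
def Thin (V : Set (Fin n → ℝ)) : Prop :=
  ∀ a b c d, interior (Slopes V a b ∪ Slopes V c d) = ∅

/-- The derivative in direction `u`. -/
noncomputable def D (u : Fin n → ℝ) (f : MvPolynomial (Fin n) ℝ) : MvPolynomial (Fin n) ℝ :=
  ∑ i, u i • pderiv i f

/-- The substitution `f ↦ f (Φ z)`; the rows of the matrix are `Φ i`. -/
noncomputable def pull (Φ : Fin n → Fin m → ℝ) (f : MvPolynomial (Fin n) ℝ) :
    MvPolynomial (Fin m) ℝ := aeval (fun i => lin (Φ i)) f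

/-- Forms of degree `d` go to multiples of one member of `H(W)`. -/
def RankOne (W : Set (Fin m → ℝ)) (T : MvPolynomial (Fin n) ℝ →ₗ[ℝ] MvPolynomial (Fin m) ℝ)
    (d : ℕ) : Prop :=
  ∃ g ∈ HV W, ∀ f, f.IsHomogeneous d → ∃ c : ℝ, T f = c • g

/-- Forms of degree `d` go to forms of one degree. -/
def Graded (T : MvPolynomial (Fin n) ℝ →ₗ[ℝ] MvPolynomial (Fin m) ℝ) (d : ℕ) : Prop :=
  ∃ d', ∀ f, f.IsHomogeneous d → (T f).IsHomogeneous d'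

/-- `T f = f(u) P + ψ(f) Q` in degree `d`, where the linear forms `ψ(f)` vanish at `e` and
`P + l Q` is hyperbolic in direction `e` for every linear form `l` that vanishes at `e`. -/
def Pencil (T : MvPolynomial (Fin n) ℝ →ₗ[ℝ] MvPolynomial (Fin m) ℝ) (d : ℕ) (u : Fin n → ℝ)
    (e : Fin m → ℝ) : Prop :=
  ∃ P Q : MvPolynomial (Fin m) ℝ, (∀ v, v ⬝ᵥ e = 0 → Hyp e (P + lin v * Q)) ∧
    ∀ f, f.IsHomogeneous d → ∃ v, v ⬝ᵥ e = 0 ∧ T f = eval u f • P + lin v * Q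

/-- `T f = ∑ γ_j · (D_u^j f) ∘ Φ` in degree `d`, where `Φ e = 0` and the symbol
`∑ d (d-1) ⋯ (d-j+1) γ_j(z) w^(d-j)` has no zero with `z = α + τ e`, `Im τ > 0`, `Im w ≥ 0`. -/
def Symbol (T : MvPolynomial (Fin n) ℝ →ₗ[ℝ] MvPolynomial (Fin m) ℝ) (d : ℕ) (u : Fin n → ℝ)
    (e : Fin m → ℝ) : Prop :=
  ∃ (Φ : Fin n → Fin m → ℝ) (γ : ℕ → MvPolynomial (Fin m) ℝ), (∀ i, Φ i ⬝ᵥ e = 0) ∧
    (∀ f, f.IsHomogeneous d →
      T f = ∑ j ∈ Finset.range (d + 1), γ j * pull Φ ((D u)^[j] f)) ∧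
    ∀ (α : Fin m → ℝ) (τ w : ℂ), 0 < τ.im → 0 ≤ w.im →
      ∑ j ∈ Finset.range (d + 1), (d.descFactorial j : ℂ) *
        aeval (fun i => (α i : ℂ) + τ * (e i : ℂ)) (γ j) * w ^ (d - j) ≠ 0

end Pool.Agent.MP_3d209c_an.H69
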