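import Pool.Agent.MP_3d209c_an.H69.Kit

/-! Examples of thin cones. -/

namespace Pool.Agent.MP_3d209c_an.H69

open Pool.Agent.MP_3d209c_an.H71 MeasureTheory Filter Topology

variable {n : ℕ} {V : Set (Vc n)}

theorem thin_of_null_slopes (h : ∀ a b, volume (Slopes V a b) = 0) : Thin V := fun a b c d =>
  Measure.interior_eq_empty_of_null (μ := volume) (measure_union_null (h a b) (h c d))

theorem slopes_sub {E : Set (Vc n)} (h : ∀ v ∈ V, ∃ u ∈ E, ∃ r : ℝ, v = r • u) (a b : Vc n) :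
    Slopes V a b ⊆ (fun u => (b ⬝ᵥ u) / (a ⬝ᵥ u)) '' (E ∩ {u | a ⬝ᵥ u ≠ 0}) := by
  rintro _ ⟨v, hv, h1, rfl⟩
  obtain ⟨u, hu, r, rfl⟩ := h v hv
  rw [dotProduct_smul, smul_eq_mul] at h1
  refine ⟨u, ⟨hu, right_ne_zero_of_mul h1⟩, ?_⟩
  simp only [dotProduct_smul, smul_eq_mul, mul_div_mul_left _ _ (left_ne_zero_of_mul h1)]

/-- A set covered by countably many lines through the origin is thin. -/
theorem thin_of_countable {E : Set (Vc n)} (hE : E.Countable)
    (h : ∀ v ∈ V, ∃ u ∈ E, ∃ r : ℝ, v = r • u) : Thin V :=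
  thin_of_null_slopes fun a b => measure_mono_null (slopes_sub h a b)
    (((hE.mono Set.inter_subset_left).image _).measure_zero _)

/-- A set covered by the lines through a set of length zero is thin. -/
theorem thin_of_length_zero {E : Set (Vc n)} (hE : μH[1] E = 0)
    (h : ∀ v ∈ V, ∃ u ∈ E, ∃ r : ℝ, v = r • u) : Thin V := by
  refine thin_of_null_slopes fun a b => measure_mono_null (slopes_sub h a b) ?_
  have hS : μH[1] (E ∩ {u | a ⬝ᵥ u ≠ 0}) = 0 := measure_mono_null Set.inter_subset_left hE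
  have h1 : ∀ x ∈ E ∩ {u | a ⬝ᵥ u ≠ 0}, ∃ t ∈ 𝓝[E ∩ {u | a ⬝ᵥ u ≠ 0}] x, ∃ C,
      LipschitzOnWith C (fun u => (b ⬝ᵥ u) / (a ⬝ᵥ u)) t := fun x hx => by
    have h2 : ∀ c : Vc n, ContDiffAt ℝ 1 (fun u : Vc n => c ⬝ᵥ u) x := fun c => by
      unfold dotProduct
      fun_prop
    obtain ⟨C, t, ht, h3⟩ := ((h2 b).div (h2 a) hx.2).exists_lipschitzOnWith
    exact ⟨t, mem_nhdsWithin_of_mem_nhds ht, C, h3⟩
  generalize E ∩ {u | a ⬝ᵥ u ≠ 0} = S at hS h1
  choose! t ht C hC using h1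
  obtain ⟨u, hus, huc, huU⟩ := TopologicalSpace.countable_cover_nhdsWithin ht
  replace huU := Set.inter_eq_self_of_subset_left huU
  rw [Set.inter_iUnion₂] at huU
  rw [← huU, Set.image_iUnion₂, measure_biUnion_null_iff huc]
  intro x hx
  have h2 := ((hC x (hus hx)).mono (Set.inter_subset_right (s := S))).hausdorffMeasure_image_le
    zero_le_one
  rw [measure_mono_null Set.inter_subset_left hS, mul_zero, hausdorffMeasure_real] at h2
  exact le_zero_iff.1 h2

/-- A set covered by the lines through a closed set, no slope set of which contains an interval,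
is thin. -/
theorem thin_of_closed {E : Set (Vc n)} (hE : IsClosed E)
    (hs : ∀ a b, interior (Slopes E a b) = ∅) (h : ∀ v ∈ V, ∃ u ∈ E, ∃ r : ℝ, v = r • u) :
    Thin V := by
  have key : ∀ a b, IsMeagre (Slopes V a b) := fun a b => by
    let K : ℕ → Set (Vc n) := fun k =>
      Metric.closedBall 0 k ∩ (E ∩ {u | 1 / ((k : ℝ) + 1) ≤ |a ⬝ᵥ u|})
    have h1 : ∀ k, ∀ u ∈ K k, a ⬝ᵥ u ≠ 0 := fun k u hu =>
      abs_pos.1 (Nat.one_div_pos_of_nat.trans_le hu.2.2)
    refine IsMeagre.mono ((slopes_sub h a b).trans ?_) (isMeagre_iUnion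
      (f := fun k => (fun u => (b ⬝ᵥ u) / (a ⬝ᵥ u)) '' K k) fun k => IsNowhereDense.isMeagre ?_)
    · rintro _ ⟨u, ⟨h2, h3⟩, rfl⟩
      obtain ⟨k, hk⟩ := exists_nat_one_div_lt (abs_pos.2 h3)
      obtain ⟨j, hj⟩ := exists_nat_ge ‖u‖
      refine Set.mem_iUnion.2 ⟨k + j, u, ⟨?_, h2, le_trans ?_ hk.le⟩, rfl⟩
      · rw [mem_closedBall_zero_iff]
        push_cast
        linarith [k.cast_nonneg (α := ℝ)]
      · push_cast
        gcongr
        linarith [j.cast_nonneg (α := ℝ)]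
    · have h2 : IsCompact (K k) := (isCompact_closedBall _ _).inter_right
        (hE.inter (isClosed_le continuous_const (by fun_prop)))
      have h3 : ContinuousOn (fun u : Vc n => (b ⬝ᵥ u) / (a ⬝ᵥ u)) (K k) :=
        ContinuousOn.div (f := fun u => b ⬝ᵥ u) (g := fun u => a ⬝ᵥ u) (by fun_prop) (by fun_prop)
          (h1 k)
      rw [(h2.image_of_continuousOn h3).isClosed.isNowhereDense_iff]
      refine Set.eq_empty_of_subset_empty (hs a b ▸ interior_mono ?_)
      rintro _ ⟨u, hu, rfl⟩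
      exact ⟨u, hu.2.1, h1 k u hu, rfl⟩
  intro a b c d
  exact interior_eq_empty_iff_dense_compl.2 (dense_of_mem_residual ((key a b).union (key c d)))

end Pool.Agent.MP_3d209c_an.H69
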