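import Pool.Agent.MP_3d209c_an.H71.Dual
import Pool.Agent.MP_3d209c_an.H69.Defs

/-! Products of linear forms, restrictions to lines and gradients. -/

namespace Pool.Agent.MP_3d209c_an.H69

open MvPolynomial Pool.Agent.MP_3d209c_an.H71 Filter Topology

abbrev MP (n : ℕ) : Type := MvPolynomial (Fin n) ℝ

abbrev Vc (n : ℕ) : Type := Fin n → ℝ

variable {n m : ℕ}

/-- Products of `k` linear forms with coefficient vectors in `N`. -/
inductive Pr (N : Set (Vc n)) : ℕ → MP n → Prop
  | one : Pr N 0 1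
  | cons {w : Vc n} {k : ℕ} {g : MP n} : w ∈ N → Pr N k g → Pr N (k + 1) (lin w * g)

/-- The linear forms without zero on `V`. -/
def NV (V : Set (Vc n)) : Set (Vc n) := {w | ∀ e ∈ V, w ⬝ᵥ e ≠ 0}

theorem mem_NV1 {u w : Vc n} : w ∈ NV {u} ↔ w ⬝ᵥ u ≠ 0 := by simp [NV]

theorem hom_lin_mul {g : MP n} {k : ℕ} (w : Vc n) (h : g.IsHomogeneous k) :
    (lin w * g).IsHomogeneous (k + 1) := by
  rw [add_comm]; exact (lin_homogeneous w).mul h

theorem hom_pow (w : Vc n) (k : ℕ) : (lin w ^ k).IsHomogeneous k := by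
  simpa using (lin_homogeneous w).pow k

theorem hom_smul {g : MP n} {k : ℕ} (c : ℝ) (h : g.IsHomogeneous k) : (c • g).IsHomogeneous k :=
  (homogeneousSubmodule (Fin n) ℝ k).smul_mem c h

theorem Pr.hom {N : Set (Vc n)} {k : ℕ} {g : MP n} (h : Pr N k g) : g.IsHomogeneous k := by
  induction h with
  | one => exact isHomogeneous_one _ _
  | cons _ _ ih => exact hom_lin_mul _ ih

theorem Pr.mul {N : Set (Vc n)} {j k : ℕ} {f g : MP n} (hf : Pr N j f) (hg : Pr N k g) :
    Pr N (k + j) (f * g) := by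
  induction hf with
  | one => simpa using hg
  | cons hw _ ih => rw [mul_assoc]; exact Pr.cons hw ih

theorem Pr.pow {N : Set (Vc n)} {w : Vc n} (hw : w ∈ N) (k : ℕ) : Pr N k (lin w ^ k) := by
  induction k with
  | zero => simpa using Pr.one
  | succ k ih => rw [pow_succ']; exact Pr.cons hw ih

theorem Pr.mono {N N' : Set (Vc n)} (hN : N ⊆ N') {k : ℕ} {g : MP n} (h : Pr N k g) :
    Pr N' k g := by
  induction h with
  | one => exact Pr.one
  | cons hw _ ih => exact Pr.cons (hN hw) ih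

theorem Pr.cast {N : Set (Vc n)} {j k : ℕ} {g : MP n} (h : Pr N j g) (e : j = k) : Pr N k g :=
  e ▸ h

theorem Pr.prod {N : Set (Vc n)} (k : ℕ) (w : Fin k → Vc n) (hw : ∀ i, w i ∈ N) :
    Pr N k (∏ i, lin (w i)) := by
  induction k with
  | zero => simpa using Pr.one
  | succ k ih => rw [Fin.prod_univ_succ]; exact Pr.cons (hw 0) (ih _ fun i => hw _)

theorem hyp_mul {e : Vc n} {f g : MP n} (hf : Hyp e f) (hg : Hyp e g) : Hyp e (f * g) := by
  refine ⟨by rw [map_mul]; exact mul_ne_zero hf.1 hg.1, fun α z hz => ?_⟩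
  rw [map_mul] at hz
  exact (mul_eq_zero.1 hz).elim (hf.2 α z) (hg.2 α z)

theorem hyp_smul {e : Vc n} {f : MP n} (hf : Hyp e f) {c : ℝ} (hc : c ≠ 0) : Hyp e (c • f) := by
  refine ⟨by rw [smul_eval]; exact mul_ne_zero hc hf.1, fun α z hz => ?_⟩
  rw [map_smul, smul_eq_zero] at hz
  exact hf.2 α z (hz.resolve_left hc)

theorem one_mem_HV (V : Set (Vc n)) : (1 : MP n) ∈ HV V :=
  ⟨⟨0, isHomogeneous_one _ _⟩, fun e _ => ⟨by simp, fun α z hz => by simp at hz⟩⟩

theorem Pr.mem {V : Set (Vc n)} {k : ℕ} {g : MP n} (h : Pr (NV V) k g) : g ∈ HV V := by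
  refine ⟨⟨k, h.hom⟩, fun e he => ?_⟩
  induction h with
  | one => exact (one_mem_HV V).2 e he
  | @cons w _ _ hw _ ih =>
    have := prod_lin_mem (ι := Unit) (V := V) (fun _ => w) fun _ => hw
    exact hyp_mul (by simpa using this.2 e he) ih

theorem Pr.ev_ne {u : Vc n} {k : ℕ} {g : MP n} (h : Pr (NV {u}) k g) : eval u g ≠ 0 :=
  (h.mem.2 u rfl).1

theorem continuous_lin_mul {E : Type*} [AddCommGroup E] [Module ℝ E] [TopologicalSpace E]
    [ContinuousAdd E] [ContinuousSMul ℝ E] (A : MP n →ₗ[ℝ] E) (g : MP n) :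
    Continuous fun w => A (lin w * g) := by
  simp only [lin_eq, Finset.sum_mul, map_sum, smul_mul_assoc, map_smul]
  fun_prop

/-- A closed property passes from products over a dense set to all products. -/
theorem Pr.ext {N : Set (Vc n)} (hN : Dense N) {φ : MP n → Prop}
    (hφ : ∀ g, IsClosed {w | φ (lin w * g)}) {d : ℕ} (h : ∀ g, Pr N d g → φ g) {g : MP n}
    (hg : Pr Set.univ d g) : φ g := by
  have key : ∀ {j : ℕ} {f : MP n}, Pr Set.univ j f → ∀ k g, Pr N k g → k + j = d → φ (f * g) := by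
    intro j f hf
    induction hf with
    | one => intro k g hg e; rw [one_mul]; exact h g (hg.cast e)
    | @cons w j f _ _ ih =>
      intro k g hg e
      rw [mul_assoc]
      refine (hφ (f * g)).closure_subset_iff.2 (fun x hx => ?_) (hN w)
      change φ _
      rw [mul_left_comm]
      exact ih _ _ (Pr.cons hx hg) (by omega)
  simpa using key hg 0 1 Pr.one (by simp)

/-- Evaluation at `α + τ e`. -/
noncomputable def cev (α e : Vc m) (τ : ℂ) : MP m →ₐ[ℝ] ℂ :=
  aeval fun i => (α i : ℂ) + τ * (e i : ℂ)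

theorem cev_lin (α e v : Vc m) (τ : ℂ) (hv : v ⬝ᵥ e = 0) :
    cev α e τ (lin v) = ((v ⬝ᵥ α : ℝ) : ℂ) := by
  rw [cev, aeval_lin, hv]; simp

theorem continuous_cev (e : Vc m) (τ : ℂ) (F : MP m) : Continuous fun α => cev α e τ F := by
  induction F using MvPolynomial.induction_on with
  | C a => simp only [algHom_C]; exact continuous_const
  | add p q hp hq => simp only [map_add]; exact hp.add hq
  | mul_X p i hp =>
    simp only [map_mul]
    refine hp.mul ?_
    simp only [cev, aeval_X]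
    fun_prop

/-- The quantitative form of hyperbolicity. -/
def Bd (e : Vc m) (d : ℕ) (F : MP m) : Prop :=
  ∀ α τ, |eval e F| * |τ.im| ^ d ≤ ‖cev α e τ F‖

theorem hyp_of_bd {e : Vc m} {d : ℕ} {F : MP m} (h : Bd e d F) (h0 : eval e F ≠ 0) : Hyp e F := by
  refine ⟨h0, fun α z hz => ?_⟩
  have h1 := h α z
  rw [show cev α e z F = 0 from hz, norm_zero] at h1
  by_contra h2
  exact h1.not_gt (by positivity)

theorem cev_eq {e : Vc m} {d : ℕ} {F : MP m} (hF : F.IsHomogeneous d) (α : Vc m) {τ : ℂ}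
    (hτ : τ ≠ 0) :
    cev α e τ F = τ ^ d * (pl (fun i => (e i : ℂ)) (fun i => (α i : ℂ)) F).eval τ⁻¹ := by
  rw [eval_pl, ← aeval_scale hF, cev]
  congr 2
  ext i
  field_simp
  ring

theorem bd_of_hyp {e : Vc m} {d : ℕ} {F : MP m} (hF : F.IsHomogeneous d) (h : Hyp e F) :
    Bd e d F := by
  intro α τ
  rcases eq_or_ne τ 0 with rfl | hτ
  · rcases d with _ | d
    · have h1 : F ∈ homogeneousSubmodule (Fin m) ℝ 0 := hF
      rw [homogeneousSubmodule_zero, Submodule.mem_one] at h1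
      obtain ⟨c, rfl⟩ := h1
      simp
    · simp
  have hg := good_of_mem (V := {e}) (g := F) (Or.inl ⟨⟨d, hF⟩, fun x hx => hx ▸ h⟩) rfl α
  rw [cev_eq hF α hτ]
  have hd := natDegree_pl hF (fun i => (e i : ℂ)) (fun i => (α i : ℂ))
  have hp0 : (pl (fun i => (e i : ℂ)) (fun i => (α i : ℂ)) F).eval 0 = ((eval e F : ℝ) : ℂ) := by
    rw [eval_pl]; simp only [zero_mul, add_zero, aeval_ofReal]
  generalize pl (fun i => (e i : ℂ)) (fun i => (α i : ℂ)) F = p at hg hd hp0
  have hp0' : p.eval 0 ≠ 0 := by rw [hp0]; exact_mod_cast h.1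
  obtain ⟨ρ, hρ⟩ := factor_univariate d p hd hp0' fun z hz => by
    rcases hg with hg | hg
    · exact absurd (by rw [hg]; simp) hp0'
    · by_contra h
      exact hg z (Or.inl h) hz
  have h5 : ∏ i, (τ + ρ i) = ∏ i : Fin d, (τ * (1 + ρ i * τ⁻¹)) :=
    Finset.prod_congr rfl fun i _ => by field_simp
  rw [Finset.prod_mul_distrib, Finset.prod_const, Finset.card_univ, Fintype.card_fin] at h5
  rw [hρ, hp0, mul_left_comm, ← h5, norm_mul, Complex.norm_real, Real.norm_eq_abs, norm_prod]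
  refine mul_le_mul_of_nonneg_left ?_ (abs_nonneg _)
  calc |τ.im| ^ d = ∏ _i : Fin d, |τ.im| := by simp
    _ ≤ _ := Finset.prod_le_prod (fun _ _ => abs_nonneg _) fun i _ => by
      simpa using Complex.abs_im_le_norm (τ + ρ i)

/-- The restriction to the line `e + X α`. -/
noncomputable def rp (e α : Vc m) : MP m →ₐ[ℝ] Polynomial ℝ :=
  aeval fun i => Polynomial.C (e i) + Polynomial.C (α i) * Polynomial.X

theorem eval_rp (e α : Vc m) (F : MP m) (r : ℝ) : (rp e α F).eval r = eval (e + r • α) F := by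
  induction F using MvPolynomial.induction_on with
  | C a => simp [rp]
  | add p q hp hq => simp [hp, hq]
  | mul_X p i hp => rw [map_mul, Polynomial.eval_mul, hp]; simp [rp, mul_comm r]

theorem pl_eq (e α : Vc m) (F : MP m) :
    pl (fun i => (e i : ℂ)) (fun i => (α i : ℂ)) F = (rp e α F).map (algebraMap ℝ ℂ) := by
  induction F using MvPolynomial.induction_on with
  | C a => simp [rp, pl, Polynomial.algebraMap_apply]
  | add p q hp hq => simp [hp, hq]
  | mul_X p i hp => rw [map_mul, map_mul, Polynomial.map_mul, hp]; simp [rp, pl]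

theorem rp_lin (e α v : Vc m) :
    rp e α (lin v) = Polynomial.C (v ⬝ᵥ e) + Polynomial.C (v ⬝ᵥ α) * Polynomial.X :=
  Polynomial.funext fun r => by simp [eval_rp, eval_lin, mul_comm r]

theorem rp_coeff0 (e α : Vc m) (F : MP m) : (rp e α F).coeff 0 = eval e F := by
  rw [Polynomial.coeff_zero_eq_eval_zero, eval_rp]; simp

theorem D_add (u : Vc m) (f g : MP m) : D u (f + g) = D u f + D u g := by
  simp [D, Finset.sum_add_distrib]

theorem D_smul (u : Vc m) (c : ℝ) (f : MP m) : D u (c • f) = c • D u f := by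
  simp only [D, Finset.smul_sum, Derivation.map_smul]
  exact Finset.sum_congr rfl fun _ _ => smul_comm _ _ _

theorem D_mul (u : Vc m) (f g : MP m) : D u (f * g) = D u f * g + f * D u g := by
  simp only [D, pderiv_mul, smul_add, Finset.sum_add_distrib, Finset.sum_mul, Finset.mul_sum,
    smul_mul_assoc, mul_smul_comm]

theorem D_X (u : Vc m) (i : Fin m) : D u (X i) = C (u i) := by
  rw [D, Finset.sum_eq_single i] <;> simp +contextual [smul_eq_C_mul, pderiv_X]

theorem D_C (u : Vc m) (a : ℝ) : D u (C a) = 0 := by simp [D]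

theorem D_sum {ι : Type*} (u : Vc m) (s : Finset ι) (f : ι → MP m) :
    D u (∑ i ∈ s, f i) = ∑ i ∈ s, D u (f i) := by
  simp only [D, map_sum, Finset.smul_sum]
  exact Finset.sum_comm

theorem D_lin (u v : Vc m) : D u (lin v) = C (v ⬝ᵥ u) := by
  simp only [lin, D_sum, D_mul, D_C, D_X, zero_mul, zero_add, dotProduct, map_sum, map_mul]

theorem rp_D (e α : Vc m) (F : MP m) : rp e α (D α F) = (rp e α F).derivative := by
  induction F using MvPolynomial.induction_on with
  | C a => simp [D_C, rp]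
  | add p q hp hq => simp [D_add, hp, hq]
  | mul_X p i hp => rw [D_mul, map_add, map_mul, map_mul, map_mul, hp, D_X]; simp [rp]

/-- The gradient at `e`. -/
noncomputable def grad (e : Vc m) : MP m →ₗ[ℝ] Vc m :=
  LinearMap.pi fun k => evl e ∘ₗ (pderiv k : Derivation ℝ (MP m) (MP m)).toLinearMap

theorem rp_coeff1 (e α : Vc m) (F : MP m) : (rp e α F).coeff 1 = grad e F ⬝ᵥ α := by
  have h := rp_coeff0 e α (D α F)
  rw [rp_D, Polynomial.coeff_derivative] at h
  simp only [zero_add, Nat.cast_zero, mul_one] at h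
  rw [h]
  simp [D, grad, dotProduct, evl_apply, mul_comm]

theorem grad_euler {e : Vc m} {d : ℕ} {F : MP m} (hF : F.IsHomogeneous d) :
    grad e F ⬝ᵥ e = d * eval e F := by
  have h := congrArg (eval e) hF.sum_X_mul_pderiv
  simpa [grad, dotProduct, evl_apply, mul_comm] using h

theorem rp_fac {e : Vc m} {d : ℕ} {F : MP m} (hF : F.IsHomogeneous d) (h : Hyp e F)
    (h1 : eval e F = 1) (α : Vc m) :
    ∃ ρ : Fin d → ℝ, rp e α F = ∏ i, (1 + Polynomial.C (ρ i) * Polynomial.X) := by
  obtain ⟨ρ, hρ⟩ := factor_plane hF h α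
  refine ⟨ρ, Polynomial.funext fun r => ?_⟩
  have := hρ 1 r
  rw [one_smul, h1, one_mul] at this
  simp [eval_rp, this, Polynomial.eval_prod]

/-- The normalised situation of one source direction `u` and one target direction `e`. -/
structure Ray (T : MP n →ₗ[ℝ] MP m) (d d' : ℕ) (u s : Vc n) (e : Vc m) : Prop where
  hs : s ⬝ᵥ u = 1
  hom : ∀ f, f.IsHomogeneous d → (T f).IsHomogeneous d'
  ev : ∀ f, f.IsHomogeneous d → eval e (T f) = eval u f
  hyp : ∀ f, Pr (NV {u}) d f → Hyp e (T f)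

end Pool.Agent.MP_3d209c_an.H69
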