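import Pool.Agent.MP_3d209c_an.H69.Spec

/-! Assembly of the steps. -/

namespace Pool.Agent.MP_3d209c_an.H69

open MvPolynomial Pool.Agent.MP_3d209c_an.H71

variable {n m : ℕ} {T : MP n →ₗ[ℝ] MP m} {u s : Vc n} {e : Vc m}

theorem Pencil.smul {d : ℕ} (h : Pencil T d u e) {c : ℝ} (hc : c ≠ 0) :
    Pencil (c • T) d u e := by
  obtain ⟨P, Q, h1, h2⟩ := h
  refine ⟨c • P, c • Q, fun v hv => ?_, fun f hf => ?_⟩
  · rw [mul_smul_comm, ← smul_add]
    exact hyp_smul (h1 v hv) hc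
  · obtain ⟨v, hv, h3⟩ := h2 f hf
    exact ⟨v, hv, by rw [LinearMap.smul_apply, h3, smul_add, mul_smul_comm, smul_comm]⟩

theorem Symbol.smul {d : ℕ} (h : Symbol T d u e) {c : ℝ} (hc : c ≠ 0) :
    Symbol (c • T) d u e := by
  obtain ⟨Φ, γ, h1, h2, h3⟩ := h
  refine ⟨Φ, fun j => c • γ j, h1, fun f hf => ?_, fun α τ w hτ hw h0 => h3 α τ w hτ hw ?_⟩
  · simp only [LinearMap.smul_apply, h2 f hf, Finset.smul_sum, smul_mul_assoc]
  · simp only [map_smul, mul_smul_comm, smul_mul_assoc, ← Finset.smul_sum] at h0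
    exact (smul_eq_zero.1 h0).resolve_left hc

theorem const_of_hom {f : MP n} (hf : f.IsHomogeneous 0) : ∃ c : ℝ, f = c • 1 := by
  have h1 : f ∈ homogeneousSubmodule (Fin n) ℝ 0 := hf
  rw [homogeneousSubmodule_zero, Submodule.mem_one] at h1
  obtain ⟨c, rfl⟩ := h1
  exact ⟨c, Algebra.algebraMap_eq_smul_one c⟩

theorem rankOne_of {W : Set (Vc m)} {d : ℕ} {g : MP m} (hg : g ∈ HV W ∪ {0})
    (h : ∀ f : MP n, f.IsHomogeneous d → ∃ c : ℝ, T f = c • g) : RankOne W T d := by
  rcases hg with hg | hg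
  · exact ⟨g, hg, h⟩
  · refine ⟨1, one_mem_HV W, fun f hf => ⟨0, ?_⟩⟩
    obtain ⟨c, hc⟩ := h f hf
    rw [hc, Set.mem_singleton_iff.1 hg, smul_zero, zero_smul]

theorem ray_cases (hPen : SPen) (hK : SK) (hDiv : SDiv) (hRep : SRep) (hSym : SSym) {k d' : ℕ}
    (h : Ray T (k + 1) d' u s e) : Pencil T (k + 1) u e ∨ Symbol T (k + 1) u e := by
  by_cases hF : Fl T k u s e
  · by_cases hy : ∃ y, y ⬝ᵥ u = 0 ∧ grad e (T (lin y * lin s ^ k)) ≠ 0
    · obtain ⟨y, hy, h0⟩ := hy
      have hd := hDiv n m k d' T u s y e h hF hy h0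
      choose! g hg using hd
      refine Or.inr ⟨_, _, fun i => ?_, hRep n m k d' T u s y e g h hF hy h0 hg,
        fun α τ w hτ hw => ?_⟩
      · have h1 := hom_lin_mul (Pi.single i 1 - u i • s) (hom_pow s k)
        rw [grad_euler (h.hom _ h1), h.ev _ h1, map_mul, eval_lin]
        simp [h.hs]
      · have h1 := hSym n m k d' T u s y e g h hF hy h0 hg α τ w hτ hw
        rw [← Finset.sum_range_reflect] at h1
        refine fun h2 => h1 (Eq.trans (Finset.sum_congr rfl fun j hj => ?_) h2)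
        have h3 : j ≤ k + 1 := Nat.lt_succ_iff.1 (Finset.mem_range.1 hj)
        have h4 : ((j.factorial : ℝ) : ℂ) ≠ 0 := by exact_mod_cast j.factorial_ne_zero
        rw [Nat.add_sub_cancel, Nat.choose_symm h3, Nat.descFactorial_eq_factorial_mul_choose,
          map_smul, Complex.real_smul, cev]
        push_cast at h4 ⊢
        field_simp
    · push Not at hy
      refine Or.inl ⟨T (lin s ^ (k + 1)), 0, fun v _ => ?_, fun f hf => ⟨0, by simp, ?_⟩⟩
      · rw [mul_zero, add_zero]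
        exact h.hyp _ (Pr.pow (mem_NV1.2 (by simp [h.hs])) _)
      · rw [mul_zero, add_zero]
        refine MvPolynomial.funext fun z => ?_
        have := eval_of_perp k (evl z ∘ₗ T) h.hs (fun l hl p => by
          simpa [evl_apply] using
            hK n m k d' T u s l e z _ h hF hl (by simp [hy l hl]) (hom_pow p k)) f hf
        simpa [evl_apply, smul_eval] using this
  · left
    unfold Fl at hF
    push Not at hF
    obtain ⟨l, hl, g, hg, hne⟩ := hF
    rcases k with _ | k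
    · obtain ⟨c, rfl⟩ := const_of_hom hg
      exact absurd (by simp) hne
    by_contra hP
    refine hne (funext fun i => ?_)
    have := eval_of_perp k (LinearMap.proj i ∘ₗ grad e ∘ₗ T ∘ₗ LinearMap.mulLeft ℝ (lin l)) h.hs
      (fun m₂ hm p => by
        by_contra h1
        exact hP (hPen n m k d' T u s l m₂ p e h hl hm fun h2 => h1 (by simp [h2]))) g hg
    simpa using this

theorem main (hDen : SDense) (hDich : SDich) (hGr : SGraded) (hPen : SPen) (hK : SK) (hDiv : SDiv)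
    (hRep : SRep) (hSym : SSym) (hSuf : SSuf) {V : Set (Vc n)} (h0 : 0 ∉ V) (hV : Thin V)
    (W : Set (Vc m)) (T : MP n →ₗ[ℝ] MP m) :
    (∀ f ∈ HV V, T f ∈ HV W ∪ {0}) ↔ ∀ d, RankOne W T d ∨
      (Graded T d ∧ ∀ e ∈ W, ∃ u ∈ V, Pencil T d u e ∨ Symbol T d u e) := by
  constructor
  · intro hT d
    rcases d with _ | k
    · refine Or.inl (rankOne_of (hT 1 (one_mem_HV V)) fun f hf => ?_)
      obtain ⟨c, rfl⟩ := const_of_hom hf
      exact ⟨c, map_smul _ _ _⟩
    refine or_iff_not_imp_left.2 fun hR => ?_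
    have hN := hDen n V hV h0
    obtain ⟨d', hd'⟩ := hGr n m (k + 1) _ T hN fun g hg =>
      (hT g hg.mem).elim (fun h => h.1) fun h => ⟨0, by
        rw [Set.mem_singleton_iff.1 h]; exact isHomogeneous_zero _ _ _⟩
    refine ⟨⟨d', hd'⟩, fun e he => ?_⟩
    rcases hDich n m k V (evl e ∘ₗ T) T hV h0 (fun g hg h1 => (hT g hg.mem).resolve_left
      fun h2 => (h2.2 e he).1 (by simpa [evl_apply] using h1)) with ⟨f₀, h1, h2⟩ | ⟨u, hu, c, hc, h1⟩
    · exact absurd (rankOne_of (hT _ h1.mem) h2) hR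
    simp only [LinearMap.comp_apply, evl_apply] at h1
    have hu0 : u ⬝ᵥ u ≠ 0 := mt dotProduct_self_eq_zero.1 fun h => h0 (h ▸ hu)
    have hB : ∀ g, Pr Set.univ (k + 1) g → Bd e d' (T g) := fun g hg =>
      Pr.ext hN (φ := fun g => Bd e d' (T g)) (fun g => by
        simp only [Bd, Set.ofPred_forall]
        refine isClosed_iInter fun α => isClosed_iInter fun τ => isClosed_le ?_ ?_
        · have := continuous_lin_mul (evl e ∘ₗ T) g
          simp only [LinearMap.comp_apply, evl_apply] at this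
          exact this.abs.mul continuous_const
        · exact (continuous_lin_mul ((cev α e τ).toLinearMap ∘ₗ T) g).norm) (fun g hg => by
        rcases hT g hg.mem with h | h
        · exact bd_of_hyp (hd' g hg.hom) (h.2 e he)
        · intro α τ
          simp [Set.mem_singleton_iff.1 h]) hg
    have hRay : Ray (c⁻¹ • T) (k + 1) d' u ((u ⬝ᵥ u)⁻¹ • u) e :=
      ⟨by rw [smul_dotProduct, smul_eq_mul, inv_mul_cancel₀ hu0],
        fun f hf => hom_smul _ (hd' f hf),
        fun f hf => by rw [LinearMap.smul_apply, smul_eval, h1 f hf, inv_mul_cancel_left₀ hc],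
        fun f hf => hyp_smul (hyp_of_bd (hB f (hf.mono (Set.subset_univ _)))
          (by rw [h1 f hf.hom]; exact mul_ne_zero hc hf.ev_ne)) (inv_ne_zero hc)⟩
    have h2 := (ray_cases hPen hK hDiv hRep hSym hRay).imp (fun h => h.smul hc) fun h => h.smul hc
    rw [smul_inv_smul₀ hc] at h2
    exact ⟨u, hu, h2⟩
  · rintro h f ⟨⟨d, hd⟩, hf⟩
    rcases h d with ⟨g, hg, h1⟩ | ⟨⟨d', hd'⟩, h1⟩
    · obtain ⟨c, hc⟩ := h1 f hd
      rw [hc]
      exact smul_mem (Or.inl hg) c
    refine Or.inl ⟨⟨d', hd' f hd⟩, fun e he => ?_⟩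
    obtain ⟨u, hu, ⟨P, Q, h2, h3⟩ | h2⟩ := h1 e he
    · obtain ⟨v, hv, h4⟩ := h3 f hd
      have h5 := (hf u hu).1
      have h6 := hyp_smul (h2 ((eval u f)⁻¹ • v) (by simp [hv])) h5
      rwa [smul_add, lin_smul, smul_mul_assoc, smul_inv_smul₀ h5, ← h4] at h6
    · exact hSuf n m d d' T u e f h2 hd (hd' f hd) (hf u hu)

end Pool.Agent.MP_3d209c_an.H69
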