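import Pool.Agent.MP_3d209c_an.H69.Spec

/-! Row Bnd: bounds near the hyperplane where the gradient form vanishes. -/

namespace Pool.Agent.MP_3d209c_an.H69

open Pool.Agent.MP_3d209c_an.H71 MvPolynomial

namespace RBnd

variable {n m : ℕ}

theorem cont_coeff (e : Vc m) (F : MP m) :
    ∀ i : ℕ, Continuous fun α : Vc m => (rp e α F).coeff i := by
  induction F using MvPolynomial.induction_on with
  | C a =>
    intro i
    simp only [algHom_C]
    exact continuous_const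
  | add p q hp hq =>
    intro i
    simp only [map_add, Polynomial.coeff_add]
    exact (hp i).add (hq i)
  | mul_X p l hp =>
    intro i
    have h : ∀ α : Vc m, rp e α (p * X l)
        = rp e α p * Polynomial.C (e l) + rp e α p * Polynomial.C (α l) * Polynomial.X := by
      intro α
      rw [map_mul]
      simp only [rp, aeval_X]
      ring
    simp only [h, Polynomial.coeff_add]
    refine Continuous.add ?_ ?_
    · simp only [Polynomial.coeff_mul_C]
      exact (hp i).mul continuous_const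
    · rcases i with _ | i
      · simp only [Polynomial.mul_coeff_zero, Polynomial.coeff_X_zero, mul_zero]
        exact continuous_const
      · simp only [Polynomial.coeff_mul_X, Polynomial.coeff_mul_C]
        exact (hp i).mul (continuous_apply l)

/-- The coefficient functional. -/
noncomputable def cf (T : MP n →ₗ[ℝ] MP m) (e α : Vc m) (i : ℕ) : MP n →ₗ[ℝ] ℝ :=
  Polynomial.lcoeff ℝ i ∘ₗ (rp e α).toLinearMap ∘ₗ T

theorem cf_apply (T : MP n →ₗ[ℝ] MP m) (e α : Vc m) (i : ℕ) (f : MP n) :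
    cf T e α i f = (rp e α (T f)).coeff i := rfl

theorem step (s y : Vc n) (w : ℝ) (i j : ℕ) :
    lin s ^ i * lin (s + w • y) ^ (j + 1)
      = lin s ^ (i + 1) * lin (s + w • y) ^ j + w • (lin y * (lin s ^ i * lin (s + w • y) ^ j)) := by
  rw [pow_succ (lin (s + w • y)), pow_succ (lin s)]
  generalize lin (s + w • y) ^ j = G
  rw [lin_add, lin_smul, smul_eq_C_mul, smul_eq_C_mul]
  ring

theorem ev_one {u s y : Vc n} (hs : s ⬝ᵥ u = 1) (hy : y ⬝ᵥ u = 0) (w : ℝ) (i j : ℕ) :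
    eval u (lin s ^ i * lin (s + w • y) ^ j) = 1 := by
  simp [eval_lin, hs, hy]

theorem pr_mem {u s y : Vc n} (hs : s ⬝ᵥ u = 1) (hy : y ⬝ᵥ u = 0) (w : ℝ) (i j : ℕ) :
    Pr (NV {u}) (i + j) (lin s ^ i * lin (s + w • y) ^ j) := by
  have h1 : s ∈ NV {u} := mem_NV1.2 (by rw [hs]; exact one_ne_zero)
  have h2 : s + w • y ∈ NV {u} := mem_NV1.2 (by simp [hs, hy])
  exact ((Pr.pow h1 i).mul (Pr.pow h2 j)).cast (add_comm _ _)

theorem p_val {k : ℕ} {u s y : Vc n} (hs : s ⬝ᵥ u = 1) (hy : y ⬝ᵥ u = 0) (p : MP n →ₗ[ℝ] ℝ)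
    {ρ : ℝ} (hρ : ρ ≠ 0) (hp : ∀ g : MP n, g.IsHomogeneous k → p (lin y * g) = eval u g * ρ) :
    ∀ j i : ℕ, i + j = k + 1 →
      p (lin s ^ i * lin (s + ρ⁻¹ • y) ^ j) = p (lin s ^ (k + 1)) + j := by
  intro j
  induction j with
  | zero =>
    intro i hi
    rw [add_zero] at hi
    subst hi
    simp
  | succ j ih =>
    intro i hi
    have hk : i + j = k := by omega
    rw [step, map_add, map_smul, ih (i + 1) (by omega),
      hp _ ((pr_mem hs hy ρ⁻¹ i j).cast hk).hom, ev_one hs hy, smul_eq_mul, one_mul,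
      inv_mul_cancel₀ hρ]
    push_cast
    ring

theorem q_mono {k : ℕ} {u s y : Vc n} (hs : s ⬝ᵥ u = 1) (hy : y ⬝ᵥ u = 0) (q : MP n →ₗ[ℝ] ℝ)
    {w : ℝ} (hw : 0 ≤ w) (hq : ∀ (r : ℕ) (g : MP n), r + 1 = k → Pr (NV {u}) r g →
      eval u g = 1 → 0 ≤ q (lin y * (lin y * g))) :
    ∀ j i : ℕ, i + j = k →
      q (lin y * lin s ^ k) ≤ q (lin y * (lin s ^ i * lin (s + w • y) ^ j)) := by
  intro j
  induction j with
  | zero =>
    intro i hi
    rw [add_zero] at hi
    subst hi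
    simp
  | succ j ih =>
    intro i hi
    rw [step, mul_add, mul_smul_comm, map_add, map_smul, smul_eq_mul]
    have h1 := ih (i + 1) (by omega)
    have h2 := hq (i + j) _ (by omega) (pr_mem hs hy w i j) (ev_one hs hy w i j)
    have h3 := mul_nonneg hw h2
    linarith

theorem q_val {k : ℕ} {s y : Vc n} (q : MP n →ₗ[ℝ] ℝ) {w : ℝ} (hw : 0 ≤ w)
    (hq : ∀ j i : ℕ, i + j = k →
      q (lin y * lin s ^ k) ≤ q (lin y * (lin s ^ i * lin (s + w • y) ^ j))) :
    ∀ j i : ℕ, i + j = k + 1 → q (lin s ^ (k + 1)) + j * (w * q (lin y * lin s ^ k))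
      ≤ q (lin s ^ i * lin (s + w • y) ^ j) := by
  intro j
  induction j with
  | zero =>
    intro i hi
    rw [add_zero] at hi
    subst hi
    simp
  | succ j ih =>
    intro i hi
    rw [step, map_add, map_smul, smul_eq_mul]
    have h1 := ih (i + 1) (by omega)
    have h2 := mul_le_mul_of_nonneg_left (hq j i (by omega)) hw
    push_cast
    linarith

theorem nonneg_of_quad {A B : ℝ} (h : ∀ x : ℝ, 0 ≤ A + x ^ 2 * B) : 0 ≤ B := by
  by_contra hB
  rw [not_le] at hB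
  have h1 := h (√((|A| + 1) / -B))
  rw [Real.sq_sqrt (div_nonneg (by positivity) (by linarith))] at h1
  have h2 : (|A| + 1) / -B * B = -(|A| + 1) := by
    have : B ≠ 0 := hB.ne
    field_simp
  have h3 := le_abs_self A
  linarith

theorem sq_nonneg' (h0 : SCoef) {d d' : ℕ} {T : MP n →ₗ[ℝ] MP m} {u s : Vc n} {e : Vc m}
    (hR : Ray T d d' u s e) (α : Vc m) {f : MP n} (hf : Pr (NV {u}) d f) (h1 : eval u f = 1) :
    ∃ ρ : Fin d' → ℝ, rp e α (T f) = ∏ i, (1 + Polynomial.C (ρ i) * Polynomial.X) ∧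
      cf T e α 1 f ^ 2 - 2 * cf T e α 2 f = ∑ i, ρ i ^ 2 := by
  obtain ⟨ρ, hρ⟩ := rp_fac (hR.hom f hf.hom) (hR.hyp f hf) (by rw [hR.ev f hf.hom, h1]) α
  exact ⟨ρ, hρ, (h0 d' ρ _ hρ).2⟩

theorem q_yy (h0 : SCoef) {r d' : ℕ} {T : MP n →ₗ[ℝ] MP m} {u s y : Vc n} {e : Vc m}
    (hR : Ray T (r + 1 + 1) d' u s e) (hy : y ⬝ᵥ u = 0) (α : Vc m) {g : MP n}
    (hg : Pr (NV {u}) r g) (h1 : eval u g = 1) (hp : cf T e α 1 (lin y * (lin y * g)) = 0) :
    0 ≤ cf T e α 2 (lin y * (lin y * g)) := by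
  have key : ∀ x : ℝ, 0 ≤ (cf T e α 1 (lin s * (lin s * g)) ^ 2
      - 2 * cf T e α 2 (lin s * (lin s * g))) + x ^ 2 * (2 * cf T e α 2 (lin y * (lin y * g))) := by
    intro x
    have hm : ∀ c : ℝ, s + c • y ∈ NV {u} := fun c => mem_NV1.2 (by simp [hR.hs, hy])
    have hf : Pr (NV {u}) (r + 1 + 1) (lin (s + x • y) * (lin (s + (-x) • y) * g)) :=
      Pr.cons (hm x) (Pr.cons (hm (-x)) hg)
    have he : eval u (lin (s + x • y) * (lin (s + (-x) • y) * g)) = 1 := by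
      simp [eval_lin, hR.hs, hy, h1]
    obtain ⟨ρ, -, hρ⟩ := sq_nonneg' h0 hR α hf he
    have hid : lin (s + x • y) * (lin (s + (-x) • y) * g)
        = lin s * (lin s * g) - (x ^ 2) • (lin y * (lin y * g)) := by
      rw [lin_add, lin_add, lin_smul, lin_smul, smul_eq_C_mul, smul_eq_C_mul, smul_eq_C_mul,
        map_neg, map_pow]
      ring
    rw [hid, map_sub, map_sub, map_smul, map_smul, hp, smul_zero, sub_zero, smul_eq_mul] at hρ
    have h2 : 0 ≤ ∑ i, ρ i ^ 2 := Finset.sum_nonneg fun i _ => sq_nonneg _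
    linarith
  have := nonneg_of_quad key
  linarith

theorem prod_bound {d : ℕ} (ρ : Fin d → ℝ) {B : ℝ} (h : ∑ i, ρ i ^ 2 ≤ B) :
    |∏ i, (1 + ρ i)| ≤ (2 + B) ^ d := by
  rw [Finset.abs_prod]
  calc ∏ i, |1 + ρ i| ≤ ∏ _i : Fin d, (2 + B) := by
        refine Finset.prod_le_prod (fun _ _ => abs_nonneg _) fun i _ => ?_
        have h1 : ρ i ^ 2 ≤ ∑ i, ρ i ^ 2 :=
          Finset.single_le_sum (f := fun i => ρ i ^ 2) (fun _ _ => sq_nonneg _) (Finset.mem_univ i)
        rw [abs_le]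
        constructor <;> nlinarith [sq_nonneg (ρ i + 1), sq_nonneg (ρ i - 1)]
    _ = (2 + B) ^ d := by simp

end RBnd

open RBnd in
theorem sBnd (h0 : SCoef) (h1 : SK) (h2 : SDiv0) : SBnd := by
  intro n m k d' T u s y e a z hR hF hy ha hz j hj
  have hys : (lin y * lin s ^ k).IsHomogeneous (k + 1) := hom_lin_mul y (hom_pow s k)
  obtain ⟨H, hH⟩ : lin (grad e (T (lin y * lin s ^ k))) ∣ T (lin y * lin s ^ k) := by
    refine h2 m _ _ (fun h => ?_) fun z' hz' => h1 n m k d' T u s y e z' _ hR hF hy hz' (hom_pow s k)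
    rw [h, zero_dotProduct] at ha
    exact zero_ne_one ha
  have he : grad e (T (lin y * lin s ^ k)) ⬝ᵥ e = 0 := by
    rw [grad_euler (hR.hom _ hys), hR.ev _ hys, map_mul, eval_lin, hy, zero_mul, mul_zero]
  have hFy := hF y hy
  generalize grad e (T (lin y * lin s ^ k)) = lam at ha hz hH he hFy
  have hα : Continuous fun ρ : ℝ => z - e + ρ • a := by fun_prop
  have hG : Continuous fun ρ : ℝ =>
      ((rp e (z - e + ρ • a) (T (lin s ^ (k + 1)))).coeff 1 + j) ^ 2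
        - 2 * ((rp e (z - e + ρ • a) (T (lin s ^ (k + 1)))).coeff 2
          + j * (rp e (z - e + ρ • a) H).coeff 1) :=
    ((((cont_coeff e _ 1).comp hα).add continuous_const).pow 2).sub
      (continuous_const.mul (((cont_coeff e _ 2).comp hα).add
        (continuous_const.mul ((cont_coeff e _ 1).comp hα))))
  obtain ⟨B, hB⟩ := (isCompact_Icc (a := (0 : ℝ)) (b := 1)).bddAbove_image hG.continuousOn
  refine ⟨(2 + B) ^ d', fun ρ hρ => ?_⟩
  have hB' := hB (Set.mem_image_of_mem _ (Set.Ioc_subset_Icc_self hρ))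
  have hρ0 : 0 < ρ := hρ.1
  have hzα : e + (1 : ℝ) • (z - e + ρ • a) = z + ρ • a := by
    rw [one_smul]; abel
  have hlα : lam ⬝ᵥ (z - e + ρ • a) = ρ := by
    rw [dotProduct_add, dotProduct_sub, dotProduct_smul, ha, hz, he]; simp
  generalize z - e + ρ • a = α at hB' hzα hlα
  have hp : ∀ g : MP n, g.IsHomogeneous k → cf T e α 1 (lin y * g) = eval u g * ρ := by
    intro g hg
    rw [cf_apply, rp_coeff1, hFy g hg, smul_dotProduct, hlα, smul_eq_mul]
  have hw : 0 ≤ ρ⁻¹ := (inv_pos.2 hρ0).le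
  have hij : k + 1 - j + j = k + 1 := by omega
  have e1 := p_val hR.hs hy (cf T e α 1) hρ0.ne' hp j _ hij
  have hq : ∀ (r : ℕ) (g : MP n), r + 1 = k → Pr (NV {u}) r g →
      eval u g = 1 → 0 ≤ cf T e α 2 (lin y * (lin y * g)) := by
    intro r g hr hg hg1
    subst hr
    refine q_yy h0 hR hy α hg hg1 ?_
    rw [hp _ (hom_lin_mul y hg.hom), map_mul, eval_lin, hy, zero_mul, zero_mul]
  have e2 := q_val (cf T e α 2) hw (q_mono hR.hs hy (cf T e α 2) hw hq) j _ hij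
  have e3 : ρ⁻¹ * cf T e α 2 (lin y * lin s ^ k) = (rp e α H).coeff 1 := by
    rw [cf_apply, hH, map_mul, rp_lin, he, hlα, map_zero, zero_add, mul_assoc,
      Polynomial.coeff_C_mul, Polynomial.coeff_X_mul, ← mul_assoc, inv_mul_cancel₀ hρ0.ne', one_mul]
  obtain ⟨τ, hτ, hsum⟩ := sq_nonneg' h0 hR α ((pr_mem hR.hs hy ρ⁻¹ (k + 1 - j) j).cast hij)
    (ev_one hR.hs hy _ _ _)
  rw [← hzα, ← eval_rp, hτ]
  simp only [Polynomial.eval_prod, Polynomial.eval_add, Polynomial.eval_one, Polynomial.eval_mul,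
    Polynomial.eval_C, Polynomial.eval_X, mul_one]
  refine prod_bound τ ?_
  rw [← hsum, e1]
  rw [e3] at e2
  rw [← cf_apply T e α 1, ← cf_apply T e α 2] at hB'
  linarith

end Pool.Agent.MP_3d209c_an.H69
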