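import Pool.Agent.MP_3d209c_an.H69.Spec

/-! Thin sets: density of the admissible forms and functionals without zero on products. -/

namespace Pool.Agent.MP_3d209c_an.H69

open MvPolynomial Pool.Agent.MP_3d209c_an.H71 Filter Topology

namespace RDich

variable {n : ℕ} {V : Set (Vc n)}

theorem dense2 (hV : Thin V) (a b c d : Vc n) : Dense (Slopes V a b ∪ Slopes V c d)ᶜ :=
  interior_eq_empty_iff_dense_compl.1 (hV a b c d)

theorem dense1 (hV : Thin V) (a b : Vc n) : Dense (Slopes V a b)ᶜ := by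
  simpa using dense2 hV a b a b

theorem ne_of_slope {q b e : Vc n} {t : ℝ} (ht : t ∉ Slopes V q (-b)) (he : e ∈ V)
    (hq : q ⬝ᵥ e ≠ 0) : (b + t • q) ⬝ᵥ e ≠ 0 := by
  intro h
  refine ht ⟨e, he, hq, ?_⟩
  rw [add_dotProduct, smul_dotProduct, smul_eq_mul] at h
  rw [neg_dotProduct, eq_div_iff hq]
  linarith

theorem mem_of_slope {q b : Vc n} {t : ℝ} (ht : t ∉ Slopes V q (-b)) (hq : q ∈ NV V) :
    b + t • q ∈ NV V := fun _ he => ne_of_slope ht he (hq _ he)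

theorem exists_q (hV : Thin V) (L : Submodule ℝ (Vc n))
    (h : ∀ e ∈ V, ∃ w ∈ L, w ⬝ᵥ e ≠ 0) : ∃ q ∈ L, q ∈ NV V := by
  classical
  have key : ∀ s : Finset (Vc n), ∃ q ∈ Submodule.span ℝ (s : Set (Vc n)),
      ∀ e ∈ V, q ⬝ᵥ e = 0 → ∀ b ∈ s, b ⬝ᵥ e = 0 := by
    intro s
    induction s using Finset.induction_on with
    | empty => exact ⟨0, Submodule.zero_mem _, by simp⟩
    | insert b s _ ih =>
      obtain ⟨q, hq, h1⟩ := ih
      obtain ⟨t, ht⟩ := (dense1 hV q (-b)).nonempty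
      rw [Finset.coe_insert]
      refine ⟨b + t • q, add_mem (Submodule.subset_span (Set.mem_insert _ _))
        (Submodule.smul_mem _ _ (Submodule.span_mono (Set.subset_insert _ _) hq)),
        fun e he h2 => ?_⟩
      have h3 : q ⬝ᵥ e = 0 := by_contra fun h3 => ne_of_slope ht he h3 h2
      intro x hx
      rcases Finset.mem_insert.1 hx with rfl | hx
      · simpa [h3] using h2
      · exact h1 e he h3 x hx
  obtain ⟨s, rfl⟩ : L.FG := IsNoetherian.noetherian L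
  obtain ⟨q, hq, h1⟩ := key s
  refine ⟨q, hq, fun e he h2 => ?_⟩
  obtain ⟨w, hw, h3⟩ := h e he
  refine h3 (Submodule.span_induction (p := fun w _ => w ⬝ᵥ e = 0) (h1 e he h2) (by simp)
    (fun x y _ _ hx hy => by simp [hx, hy]) (fun a x _ hx => by simp [hx]) hw)

theorem perp_par {v e : Vc n} (hv : v ≠ 0) (h : ∀ w, w ⬝ᵥ v = 0 → w ⬝ᵥ e = 0) :
    ∃ r : ℝ, e = r • v := by
  have h0 : v ⬝ᵥ v ≠ 0 := mt dotProduct_self_eq_zero.1 hv
  have h1 : (e - ((e ⬝ᵥ v) / (v ⬝ᵥ v)) • v) ⬝ᵥ v = 0 := by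
    rw [sub_dotProduct, smul_dotProduct, smul_eq_mul, div_mul_cancel₀ _ h0, sub_self]
  refine ⟨(e ⬝ᵥ v) / (v ⬝ᵥ v), sub_eq_zero.1 (dotProduct_self_eq_zero.1 ?_)⟩
  rw [dotProduct_sub, dotProduct_smul, h _ h1, h1, smul_zero, sub_zero]

/-- A functional that vanishes on the admissible forms of a hyperplane vanishes on it. -/
theorem cross (hV : Thin V) (h0 : 0 ∉ V) {v v' : Vc n} (hv : ∀ e ∈ V, ∀ r : ℝ, r ≠ 0 → v ≠ r • e)
    (h : ∀ w ∈ NV V, w ⬝ᵥ v = 0 → w ⬝ᵥ v' = 0) (w w' : Vc n) :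
    (w ⬝ᵥ v) * (w' ⬝ᵥ v') = (w' ⬝ᵥ v) * (w ⬝ᵥ v') := by
  obtain ⟨q, hq, hq'⟩ := exists_q hV (LinearMap.ker (dotProductBilin ℝ ℝ v)) fun e he => by
    by_contra h1
    push Not at h1
    have h2 : ∀ w, w ⬝ᵥ v = 0 → w ⬝ᵥ e = 0 := fun w hw => h1 w (by simpa [dotProduct_comm] using hw)
    rcases eq_or_ne v 0 with rfl | h3
    · exact h0 (dotProduct_self_eq_zero.1 (h2 e (by simp)) ▸ he)
    · obtain ⟨r, rfl⟩ := perp_par h3 h2
      have hr : r ≠ 0 := by rintro rfl; exact h0 (by simpa using he)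
      exact hv _ he r⁻¹ (inv_ne_zero hr) (inv_smul_smul₀ hr v).symm
  have hqv : q ⬝ᵥ v = 0 := by simpa [dotProduct_comm] using hq
  have key : ∀ x, x ⬝ᵥ v = 0 → x ⬝ᵥ v' = 0 := fun x hx => by
    obtain ⟨t, ht⟩ := (dense1 hV q (-x)).nonempty
    simpa [h q hq' hqv] using h _ (mem_of_slope ht hq') (by simp [hx, hqv])
  have := key ((w ⬝ᵥ v) • w' - (w' ⬝ᵥ v) • w) (by simp [mul_comm])
  simpa [sub_eq_zero] using this

/-- The vector of the functional `w ↦ A (lin w * g)`. -/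
noncomputable def vec (A : MP n →ₗ[ℝ] ℝ) : MP n →ₗ[ℝ] Vc n :=
  LinearMap.pi fun i => A ∘ₗ LinearMap.mulLeft ℝ (X i)

theorem dot_vec (A : MP n →ₗ[ℝ] ℝ) (w : Vc n) (g : MP n) : w ⬝ᵥ vec A g = A (lin w * g) := by
  simp [map_lin_mul, vec, dotProduct]

/-- The cross term of two functionals. -/
noncomputable def cr (A B : MP n →ₗ[ℝ] ℝ) (w w' : Vc n) (g : MP n) : ℝ :=
  A (lin w * g) * B (lin w' * g) - A (lin w' * g) * B (lin w * g)

theorem par_of_cr (hV : Thin V) (h0 : 0 ∉ V) {A B : MP n →ₗ[ℝ] ℝ} {k : ℕ}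
    (h : ∀ g, Pr (NV V) (k + 1) g → A g = 0 → B g = 0) {w w' : Vc n} {g : MP n}
    (hg : Pr (NV V) k g) (hc : cr A B w w' g ≠ 0) : ∃ e ∈ V, ∃ r : ℝ, r ≠ 0 ∧ vec A g = r • e := by
  by_contra h1
  push Not at h1
  have := cross hV h0 h1 (v' := vec B g) (fun x hx h2 => by
    rw [dot_vec] at h2 ⊢
    exact h _ (Pr.cons hx hg) h2) w w'
  simp only [dot_vec] at this
  exact hc (sub_eq_zero.2 this)

theorem slot (hV : Thin V) (h0 : 0 ∉ V) {A B : MP n →ₗ[ℝ] ℝ} {k : ℕ}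
    (h : ∀ g, Pr (NV V) (k + 1 + 1) g → A g = 0 → B g = 0) {w w' l₁ x : Vc n} {g : MP n}
    (hg : Pr (NV V) k g) (hl : l₁ ∈ NV V) (hc : cr A B w w' (lin l₁ * g) ≠ 0)
    (hx : A (lin x * (lin l₁ * g)) = 0) (l : Vc n) : A (lin x * (lin l * g)) = 0 := by
  by_contra hβ
  obtain ⟨e₁, -, r₁, -, h1⟩ := par_of_cr hV h0 h (Pr.cons hl hg) hc
  have hv : vec A (lin l₁ * g) ≠ 0 := fun h2 => hc (by simp [cr, ← dot_vec, h2])
  obtain ⟨b, hb⟩ : ∃ b, A (lin b * (lin l₁ * g)) = 1 := ⟨(vec A (lin l₁ * g) ⬝ᵥ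
      vec A (lin l₁ * g))⁻¹ • vec A (lin l₁ * g), by
    rw [← dot_vec, smul_dotProduct, smul_eq_mul,
      inv_mul_cancel₀ (mt dotProduct_self_eq_zero.1 hv)]⟩
  have hcont : Continuous fun t : ℝ => cr A B w w' (t • (lin l * g) + lin l₁ * g) := by
    simp only [cr, mul_add, mul_smul_comm, map_add, map_smul, smul_eq_mul]
    fun_prop
  have hopen : IsOpen ((fun t : ℝ => t⁻¹) '' ({t | cr A B w w' (t • (lin l * g) + lin l₁ * g) ≠ 0}
      ∩ {0}ᶜ)) := by
    rw [Set.image_inv_eq_inv, ← Set.inv_preimage]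
    have h2 : IsOpen ({t : ℝ | cr A B w w' (t • (lin l * g) + lin l₁ * g) ≠ 0} ∩ {0}ᶜ) :=
      (isOpen_ne_fun hcont continuous_const).inter isOpen_compl_singleton
    have h3 := continuousOn_inv₀.isOpen_inter_preimage isOpen_compl_singleton h2
    convert h3 using 1
    ext t
    simp
  have hne : ({t : ℝ | cr A B w w' (t • (lin l * g) + lin l₁ * g) ≠ 0} ∩ {0}ᶜ).Nonempty :=
    (dense_compl_singleton (0 : ℝ)).inter_open_nonempty _ (isOpen_ne_fun hcont continuous_const)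
      ⟨0, by simpa using hc⟩
  obtain ⟨t, ⟨σ, ⟨hσ, hσ0⟩, rfl⟩, ht⟩ := (dense2 hV l₁ (-l) x (A (lin x * (lin l * g)) • b -
    A (lin b * (lin l * g)) • x)).inter_open_nonempty _ hopen (hne.image _)
  have hσ1 : σ ≠ 0 := hσ0
  rw [Set.compl_union] at ht
  have e1 : lin (l + σ⁻¹ • l₁) * g = σ⁻¹ • (σ • (lin l * g) + lin l₁ * g) := by
    rw [lin_add, lin_smul, add_mul, smul_add, inv_smul_smul₀ hσ1, smul_mul_assoc]
  obtain ⟨e, he, r, hr, h2⟩ := par_of_cr hV h0 h (w := w) (w' := w')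
    (Pr.cons (mem_of_slope ht.1 hl) hg) (by
      rw [e1]
      refine fun h3 => hσ ?_
      simp only [cr, mul_smul_comm, map_smul, smul_eq_mul] at h3 ⊢
      field_simp at h3
      linarith)
  have e2 : ∀ y, A (lin y * (lin l * g)) + σ⁻¹ * A (lin y * (lin l₁ * g)) = r * (y ⬝ᵥ e) := by
    intro y
    have := congrArg (fun v => y ⬝ᵥ v) h2
    simpa only [dot_vec, lin_add, lin_smul, add_mul, mul_add, smul_mul_assoc, mul_smul_comm,
      map_add, map_smul, smul_eq_mul, dotProduct_smul, dotProduct_add] using this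
  have e3 := e2 x
  have e4 := e2 b
  rw [hx, mul_zero, add_zero] at e3
  rw [hb, mul_one] at e4
  have e5 : x ⬝ᵥ e ≠ 0 := fun h3 => hβ (by rw [e3, h3, mul_zero])
  refine ht.2 ⟨e, he, e5, ?_⟩
  rw [eq_div_iff e5, sub_dotProduct, smul_dotProduct, smul_dotProduct, smul_eq_mul, smul_eq_mul]
  refine mul_left_cancel₀ hr ?_
  linear_combination A (lin x * (lin l * g)) * e4 - (A (lin b * (lin l * g)) + σ⁻¹) * e3

end RDich

open RDich

theorem sDense : SDense := by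
  intro n V hV h0
  obtain ⟨q, -, hq⟩ := exists_q hV ⊤ fun e he =>
    ⟨e, trivial, mt dotProduct_self_eq_zero.1 fun h => h0 (h ▸ he)⟩
  intro w
  have h1 : Continuous fun t : ℝ => w + t • q := by fun_prop
  have := map_mem_closure h1 (dense1 hV q (-w) 0) fun t ht => mem_of_slope ht hq
  simpa using this

theorem sDich : SDich := by
  intro n m k V lam T hV h0 h
  have hN := sDense n V hV h0
  have hext : ∀ F : Vc n → ℝ, (∀ x, AnalyticAt ℝ F x) → (∀ p ∈ NV V, F p = 0) → ∀ p, F p = 0 :=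
    fun F hF h1 => congrFun (Continuous.ext_on hN
      (continuous_iff_continuousAt.2 fun x => (hF x).continuousAt) continuous_const h1)
  have hcr : ∀ (μ : MP n →ₗ[ℝ] ℝ) w w' g j x,
      AnalyticAt ℝ (fun p => cr lam μ w w' (g * lin p ^ j)) x := fun μ w w' g j x => by
    simp only [cr, ← mul_assoc]
    exact ((analytic_pow' j _ _ x).mul (analytic_pow' j _ _ x)).sub
      ((analytic_pow' j _ _ x).mul (analytic_pow' j _ _ x))
  by_cases hA : ∀ (ψ : Module.Dual ℝ (MP m)) w w', ∀ p ∈ NV V,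
      cr lam (ψ ∘ₗ T) w w' (lin p ^ k) = 0
  · left
    by_cases hz : ∀ p ∈ NV V, lam (lin p ^ (k + 1)) = 0
    · obtain ⟨q, hq⟩ := hN.nonempty
      refine ⟨_, Pr.pow hq _, fun f hf => ⟨0, ?_⟩⟩
      rw [zero_smul, ← Module.forall_dual_apply_eq_zero_iff ℝ]
      exact fun ψ => span_pow _ (ψ ∘ₗ T) (hext _ (analytic_pow _ _) fun p hp => by
        simp [h _ (Pr.pow hp _) (hz p hp)]) f hf
    push Not at hz
    obtain ⟨q, hq, hq0⟩ := hz
    refine ⟨_, Pr.pow hq _, fun f hf => ⟨lam f / lam (lin q ^ (k + 1)), ?_⟩⟩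
    rw [← sub_eq_zero, ← Module.forall_dual_apply_eq_zero_iff ℝ]
    intro ψ
    have g1 : ∀ w w' p, cr lam (ψ ∘ₗ T) w w' (lin p ^ k) = 0 := fun w w' =>
      hext _ (by simpa using hcr (ψ ∘ₗ T) w w' 1 k) (hA ψ w w')
    have g3 := prop_of_wronskian k (ψ ∘ₗ T) lam fun u l => by
      have := g1 u l l
      simp only [cr, ← pow_succ'] at this
      linarith
    have g4 := span_pow (k + 1) (lam (lin q ^ (k + 1)) • (ψ ∘ₗ T)
      - (ψ ∘ₗ T) (lin q ^ (k + 1)) • lam) (fun l => by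
        simp only [LinearMap.sub_apply, LinearMap.smul_apply, smul_eq_mul]
        linear_combination g3 l q) f hf
    simp only [LinearMap.sub_apply, LinearMap.smul_apply, smul_eq_mul,
      LinearMap.comp_apply] at g4
    simp only [map_sub, map_smul, smul_eq_mul]
    field_simp
    linear_combination g4
  right
  push Not at hA
  obtain ⟨ψ, w, w', p₀, hp₀, hc⟩ := hA
  have h' : ∀ g, Pr (NV V) (k + 1) g → lam g = 0 → (ψ ∘ₗ T) g = 0 := fun g hg h1 => by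
    simp [h g hg h1]
  obtain ⟨u, hu, r, hr, h1⟩ := par_of_cr hV h0 h' (Pr.pow hp₀ k) hc
  have key : ∀ x, x ⬝ᵥ u = 0 → ∀ j i, i + j = k → ∀ p,
      lam (lin x * (lin p₀ ^ i * lin p ^ j)) = 0 := by
    intro x hx j
    induction j with
    | zero =>
      intro i hi p
      obtain rfl : i = k := hi
      rw [pow_zero, mul_one, ← dot_vec, h1, dotProduct_smul, hx, smul_zero]
    | succ j ih =>
      intro i hi
      obtain rfl : k = i + j + 1 := hi.symm
      have a1 : ∀ y, AnalyticAt ℝ (fun p => lam (lin x * (lin p₀ ^ i * lin p ^ (j + 1)))) y :=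
        fun y => by simpa only [← mul_assoc] using analytic_pow' (j + 1) lam _ y
      refine an_cancel (hcr (ψ ∘ₗ T) w w' (lin p₀ ^ (i + 1)) j) a1
        (hext _ (fun y => (hcr _ _ _ _ _ y).mul (a1 y)) fun p hp => ?_) (x0 := p₀)
        (by rwa [← pow_add, Nat.add_right_comm])
      refine mul_eq_zero.2 (or_iff_not_imp_left.2 fun h2 => ?_)
      have h3 := slot hV h0 h' (x := x) (((Pr.pow hp j).mul (Pr.pow hp₀ i))) hp₀
        (by rwa [mul_comm (lin p ^ j), ← mul_assoc, ← pow_succ'])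
        (by rw [mul_comm (lin p ^ j), ← mul_assoc (lin p₀), ← pow_succ']
            exact ih (i + 1) (by omega) p) p
      rwa [← mul_assoc (lin p), ← pow_succ', mul_comm (lin p ^ (j + 1))] at h3
  have hu0 : u ⬝ᵥ u ≠ 0 := mt dotProduct_self_eq_zero.1 fun h => h0 (h ▸ hu)
  have h2 := eval_of_perp k lam (e := u) (l0 := (u ⬝ᵥ u)⁻¹ • u)
    (by rw [smul_dotProduct, smul_eq_mul, inv_mul_cancel₀ hu0])
    fun x hx p => by simpa using key x hx k 0 (by simp) p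
  refine ⟨u, hu, _, fun h3 => hc ?_, fun f hf => (h2 f hf).trans (mul_comm _ _)⟩
  simp [cr, h2 _ (hom_lin_mul _ (hom_pow p₀ k)), h3]

end Pool.Agent.MP_3d209c_an.H69
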