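import Pool.Agent.MP_3d209c_an.H69.Spec

/-! Divisibility by powers of the gradient form and the representation by derivatives. -/

namespace Pool.Agent.MP_3d209c_an.H69

open MvPolynomial Pool.Agent.MP_3d209c_an.H71

namespace RDiv

variable {n m : ℕ}

theorem expand (T : MP n →ₗ[ℝ] MP m) (s y : Vc n) (w : ℝ) {d j : ℕ} (hj : j ≤ d) :
    T (lin s ^ (d - j) * lin (s + w • y) ^ j) =
      ∑ i ∈ Finset.range (j + 1), ((j.choose i : ℝ) * w ^ i) • T (lin s ^ (d - i) * lin y ^ i) := by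
  rw [lin_add, lin_smul, add_comm (lin s), add_pow, Finset.mul_sum, map_sum]
  refine Finset.sum_congr rfl fun i hi => ?_
  have hi' : i ≤ j := Nat.lt_succ_iff.mp (Finset.mem_range.mp hi)
  rw [← map_smul]
  congr 1
  rw [show d - i = (d - j) + (j - i) by omega, pow_add, smul_pow, mul_smul, Nat.cast_smul_eq_nsmul,
    nsmul_eq_mul]
  simp only [smul_mul_assoc, mul_smul_comm]
  congr 1
  ring

/-- The linear forms as a linear map. -/
noncomputable def LL (n : ℕ) : Vc n →ₗ[ℝ] MP n := IsLinearMap.mk' lin ⟨lin_add, lin_smul⟩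

/-- The derivative as a linear map. -/
noncomputable def DL (u : Vc n) : MP n →ₗ[ℝ] MP n := IsLinearMap.mk' (D u) ⟨D_add u, D_smul u⟩

theorem D_pow (u l : Vc n) (p : ℕ) :
    D u (lin l ^ p) = ((p : ℝ) * (l ⬝ᵥ u)) • lin l ^ (p - 1) := by
  induction p with
  | zero => simpa using D_C u 1
  | succ p ih =>
    rw [pow_succ, D_mul, ih, D_lin]
    rcases p with _ | p
    · simp [smul_eq_C_mul]
    · simp only [smul_eq_C_mul, Nat.add_sub_cancel, map_mul, map_natCast]
      push_cast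
      ring

theorem D_iter (u l : Vc n) (d j : ℕ) :
    (D u)^[j] (lin l ^ d) = ((d.descFactorial j : ℝ) * (l ⬝ᵥ u) ^ j) • lin l ^ (d - j) := by
  induction j with
  | zero => simp
  | succ j ih =>
    rw [Function.iterate_succ_apply', ih, D_smul, D_pow, smul_smul, Nat.descFactorial_succ,
      Nat.sub_sub]
    congr 1
    push_cast
    ring

theorem pull_lin (φ : Vc n →ₗ[ℝ] Vc m) (u s l : Vc n) :
    pull (fun i => φ (Pi.single i 1 - u i • s)) (lin l) = lin (φ (l - (l ⬝ᵥ u) • s)) := by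
  have h1 : l - (l ⬝ᵥ u) • s = ∑ i, l i • (Pi.single i 1 - u i • s : Vc n) := by
    ext c
    simp [Finset.sum_apply, Pi.single_apply, mul_sub, Finset.sum_sub_distrib, dotProduct,
      Finset.sum_mul, mul_assoc]
  rw [h1, map_sum]
  change _ = LL m _
  rw [map_sum, pull, lin_eq, map_sum]
  refine Finset.sum_congr rfl fun i _ => ?_
  rw [map_smul, map_smul, map_smul, aeval_X]
  rfl

theorem lin_ne {v : Vc m} (hv : v ≠ 0) : lin v ≠ 0 := by
  intro h
  have := eval_lin v v
  rw [h, map_zero] at this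
  exact hv (dotProduct_self_eq_zero.mp this.symm)

end RDiv

open RDiv

theorem sDiv (h1 : SBnd) (h2 : SDivJ) : SDiv := by
  intro n m k d' T u s y e hR hF hy hl j hj
  set lam := grad e (T (lin y * lin s ^ k)) with hlam
  have hll : lam ⬝ᵥ lam ≠ 0 := fun h => hl (dotProduct_self_eq_zero.mp h)
  have ha : lam ⬝ᵥ ((lam ⬝ᵥ lam)⁻¹ • lam) = 1 := by
    rw [dotProduct_smul, smul_eq_mul, inv_mul_cancel₀ hll]
  refine h2 m j lam _ _ ha fun z hz => ?_
  have hb := h1 n m k d' T u s y e _ z hR hF hy ha hz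
  generalize (lam ⬝ᵥ lam)⁻¹ • lam = a at hb ⊢
  induction j using Nat.strong_induction_on with
  | _ j ih =>
    obtain ⟨B₀, hB₀⟩ := hb j hj
    have ih' : ∀ i, i < j → ∃ B : ℝ, ∀ ρ ∈ Set.Ioc (0 : ℝ) 1,
        |eval (z + ρ • a) (T (lin s ^ (k + 1 - i) * lin y ^ i))| ≤ B * ρ ^ i :=
      fun i hi => ih i hi (by omega)
    choose! B hB using ih'
    refine ⟨B₀ + ∑ i ∈ Finset.range j, (j.choose i : ℝ) * B i, fun ρ hρ => ?_⟩
    have h3 := hB₀ ρ hρ
    have hρ0 : 0 < ρ := hρ.1
    rw [expand T s y ρ⁻¹ hj, Finset.sum_range_succ, map_add, map_sum] at h3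
    simp only [smul_eval, Nat.choose_self, Nat.cast_one, one_mul] at h3
    have h4 : |∑ i ∈ Finset.range j, ((j.choose i : ℝ) * ρ⁻¹ ^ i) *
        eval (z + ρ • a) (T (lin s ^ (k + 1 - i) * lin y ^ i))| ≤
        ∑ i ∈ Finset.range j, (j.choose i : ℝ) * B i := by
      refine (Finset.abs_sum_le_sum_abs _ _).trans (Finset.sum_le_sum fun i hi => ?_)
      have h5 := hB i (Finset.mem_range.mp hi) ρ hρ
      rw [abs_mul, abs_of_nonneg (by positivity), mul_assoc]
      refine mul_le_mul_of_nonneg_left ?_ (by positivity)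
      rw [inv_pow, inv_mul_le_iff₀ (by positivity), mul_comm (ρ ^ i)]
      exact h5
    have h6 : |ρ⁻¹ ^ j * eval (z + ρ • a) (T (lin s ^ (k + 1 - j) * lin y ^ j))| ≤
        B₀ + ∑ i ∈ Finset.range j, (j.choose i : ℝ) * B i := by
      rw [abs_le] at h3 h4 ⊢
      constructor <;> linarith [h3.1, h3.2, h4.1, h4.2]
    rw [abs_mul, abs_of_nonneg (by positivity), inv_pow, inv_mul_le_iff₀ (by positivity),
      mul_comm (ρ ^ j)] at h6
    exact h6

theorem sRep (hK : SK) : SRep := by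
  intro n m k d' T u s y e h hR hF hy hl hh f hf
  let φ : Vc n →ₗ[ℝ] Vc m := grad e ∘ₗ T ∘ₗ LinearMap.mulRight ℝ (lin s ^ k) ∘ₗ LL n
  have hφ : ∀ x, grad e (T (lin x * lin s ^ k)) = φ x := fun _ => rfl
  simp only [hφ] at hl hh ⊢
  let R : MP n →ₗ[ℝ] MP m := ∑ j ∈ Finset.range (k + 1 + 1),
    LinearMap.mulLeft ℝ ((j.factorial : ℝ)⁻¹ • h (k + 1 - j)) ∘ₗ
      (aeval (fun i => lin (φ (Pi.single i 1 - u i • s))) : MP n →ₐ[ℝ] MP m).toLinearMap ∘ₗ
        (DL u ^ j)
  have hRf : ∀ g, R g = ∑ j ∈ Finset.range (k + 1 + 1), ((j.factorial : ℝ)⁻¹ • h (k + 1 - j)) *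
      pull (fun i => φ (Pi.single i 1 - u i • s)) ((D u)^[j] g) := by
    intro g
    simp only [R, LinearMap.sum_apply, LinearMap.comp_apply, Module.End.pow_apply]
    rfl
  rw [← hRf, ← sub_eq_zero, ← LinearMap.sub_apply]
  refine span_pow_vec (k + 1) (T - R) (fun l => ?_) f hf
  rw [LinearMap.sub_apply, sub_eq_zero, hRf]
  set p : Vc n := l - (l ⬝ᵥ u) • s with hp
  have hpu : p ⬝ᵥ u = 0 := by
    rw [hp, sub_dotProduct, smul_dotProduct, hR.hs, smul_eq_mul, mul_one, sub_self]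
  have key : ∀ j, j ≤ k + 1 → T (lin s ^ j * lin p ^ (k + 1 - j)) =
      h (k + 1 - j) * lin (φ p) ^ (k + 1 - j) := by
    intro j hj
    have h0 := hh (k + 1 - j) (by omega)
    rw [show k + 1 - (k + 1 - j) = j by omega] at h0
    rcases hi : k + 1 - j with _ | i
    · rw [hi] at h0
      simpa using h0
    · rw [hi] at h0
      apply mul_left_cancel₀ (pow_ne_zero (i + 1) (lin_ne hl))
      rw [← mul_assoc, ← h0]
      refine MvPolynomial.funext fun z => ?_
      have h1 := pow_add_perp i (evl z ∘ₗ T ∘ₗ LinearMap.mulLeft ℝ (lin s ^ j))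
        (l := (φ y ⬝ᵥ z) • p) (l' := (φ p ⬝ᵥ z) • y) fun x => by
          simp only [LinearMap.comp_apply, LinearMap.mulLeft_apply, evl_apply]
          rw [mul_left_comm]
          refine hK n m k d' T u s _ e z _ hR hF ?_ ?_ ?_
          · rw [sub_dotProduct, smul_dotProduct, smul_dotProduct, hpu, hy]; simp
          · rw [hφ, map_sub, map_smul, map_smul, sub_dotProduct, smul_dotProduct, smul_dotProduct]
            simp only [smul_eq_mul]
            ring
          · have := (hom_pow s j).mul (hom_pow x i)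
            rwa [show j + i = k by omega] at this
      simp only [LinearMap.comp_apply, LinearMap.mulLeft_apply, evl_apply, lin_smul, smul_pow,
        map_smul, smul_eq_mul] at h1
      simp only [map_mul, map_pow, eval_lin]
      rw [h1, mul_comm]
  have hl' : lin l = (l ⬝ᵥ u) • lin s + lin p := by
    rw [← lin_smul, ← lin_add, hp]
    congr 1
    abel
  conv_lhs => rw [hl', add_pow, map_sum]
  refine Finset.sum_congr rfl fun j hj => ?_
  have hj' : j ≤ k + 1 := Nat.lt_succ_iff.mp (Finset.mem_range.mp hj)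
  have h2 : pull (fun i => φ (Pi.single i 1 - u i • s)) ((D u)^[j] (lin l ^ (k + 1))) =
      (((k + 1).descFactorial j : ℝ) * (l ⬝ᵥ u) ^ j) • lin (φ p) ^ (k + 1 - j) := by
    rw [D_iter, ← pull_lin φ u s l]
    simp only [pull, map_smul, map_pow]
  rw [h2, smul_pow, mul_comm _ ((k + 1).choose j : MP n), ← nsmul_eq_mul,
    ← Nat.cast_smul_eq_nsmul ℝ, smul_mul_assoc, map_smul, map_smul, key j hj', smul_mul_assoc,
    mul_smul_comm, smul_smul, smul_smul, Nat.descFactorial_eq_factorial_mul_choose]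
  congr 1
  have : (j.factorial : ℝ) ≠ 0 := by positivity
  push_cast
  field_simp

end Pool.Agent.MP_3d209c_an.H69
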