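import Pool.Agent.MP_3d209c_an.H69.Spec

/-! Low coefficients of real-rooted polynomials; lines of such polynomials. -/

namespace Pool.Agent.MP_3d209c_an.H69

open Pool.Agent.MP_3d209c_an.H71 Polynomial

namespace RF1

theorem coef (d : ℕ) (ρ : Fin d → ℝ) : (∏ i, (1 + C (ρ i) * X)).coeff 0 = 1 ∧
    (∏ i, (1 + C (ρ i) * X)).coeff 1 = ∑ i, ρ i ∧
    (∏ i, (1 + C (ρ i) * X)).coeff 1 ^ 2 - 2 * (∏ i, (1 + C (ρ i) * X)).coeff 2 =
      ∑ i, ρ i ^ 2 := by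
  induction d with
  | zero => simp [coeff_one]
  | succ d ih =>
    obtain ⟨h0, h1, h2⟩ := ih fun i => ρ i.succ
    rw [Fin.prod_univ_succ, Fin.sum_univ_succ, Fin.sum_univ_succ, ← h2, ← h1]
    generalize ∏ i : Fin d, (1 + C (ρ i.succ) * X) = q at h0
    have e0 : (X * q).coeff 0 = 0 := by simp
    have e1 : (X * q).coeff 1 = q.coeff 0 := coeff_X_mul q 0
    have e2 : (X * q).coeff 2 = q.coeff 1 := coeff_X_mul q 1
    rw [add_mul, one_mul, mul_assoc]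
    simp only [coeff_add, coeff_C_mul, e0, e1, e2, h0]
    refine ⟨by ring, by ring, by ring⟩

end RF1

theorem sCoef : SCoef := fun d ρ _ h => h ▸ (RF1.coef d ρ).2

theorem sF1 : SF1 := by
  intro d P Q h hQ
  have key : ∀ r : ℝ, ∃ ρ : Fin d → ℝ, P + r • Q = ∏ i, (1 + C (ρ i) * X) ∧
      P.coeff 1 ^ 2 - 2 * (P.coeff 2 + r * Q.coeff 2) = ∑ i, ρ i ^ 2 := fun r => by
    obtain ⟨ρ, hρ⟩ := h r
    exact ⟨ρ, hρ, by simpa [hQ] using (sCoef d ρ _ hρ).2⟩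
  have h2 : Q.coeff 2 = 0 := by
    by_contra hne
    obtain ⟨ρ, -, hρ⟩ := key ((P.coeff 1 ^ 2 + 1 - 2 * P.coeff 2) / (2 * Q.coeff 2))
    have h0 : 0 ≤ ∑ i, ρ i ^ 2 := by positivity
    have h1 : (P.coeff 1 ^ 2 + 1 - 2 * P.coeff 2) / (2 * Q.coeff 2) * Q.coeff 2 =
        (P.coeff 1 ^ 2 + 1 - 2 * P.coeff 2) / 2 := by field_simp
    rw [h1] at hρ
    linarith
  obtain ⟨B, hB⟩ : ∃ B, B = P.coeff 1 ^ 2 - 2 * P.coeff 2 := ⟨_, rfl⟩
  have hB1 : 0 < 1 + B ^ 2 := by positivity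
  refine eq_zero_of_infinite_isRoot Q ((Set.Ioo_infinite (one_div_pos.2 hB1)).mono fun x hx => ?_)
  by_contra hx0
  replace hx0 : Q.eval x ≠ 0 := hx0
  obtain ⟨ρ, hρ, hs⟩ := key (-P.eval x / Q.eval x)
  have h3 := congrArg (eval x) hρ
  rw [eval_add, eval_smul, smul_eq_mul, div_mul_cancel₀ _ hx0, add_neg_cancel, eval_prod] at h3
  obtain ⟨i, -, hi⟩ := Finset.prod_eq_zero_iff.1 h3.symm
  have h4 : ρ i ^ 2 ≤ B := by
    rw [hB]
    have := Finset.single_le_sum (f := fun i => ρ i ^ 2) (fun i _ => sq_nonneg _) (Finset.mem_univ i)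
    rw [h2] at hs
    linarith
  have h5 : x * (1 + B ^ 2) < 1 := (lt_div_iff₀ hB1).1 hx.2
  simp only [eval_add, eval_one, eval_mul, eval_C, eval_X] at hi
  have h6 : -ρ i ≤ 1 + B ^ 2 := by nlinarith [sq_nonneg (ρ i + 1), sq_nonneg (B - 1 / 4)]
  nlinarith [mul_le_mul_of_nonneg_left h6 hx.1.le]

end Pool.Agent.MP_3d209c_an.H69
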