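import Pool.Agent.MP_3d209c_an.H69.Spec

/-! Real pencils without zeros in the lower half plane, and a lower bound for stable polynomials. -/

namespace Pool.Agent.MP_3d209c_an.H69

open Polynomial Filter Topology

namespace RF2

theorem start (A B : ℂ[X]) (hA : A.coeff 0 = 1) (hB0 : B.coeff 0 = 0) (hB1 : B.coeff 1 = 1) :
    ∃ r : ℂ, r.im < 0 ∧ (B.eval r / A.eval r).im < 0 := by
  obtain ⟨D, rfl⟩ := X_dvd_iff.2 hB0
  rw [coeff_X_mul, coeff_zero_eq_eval_zero] at hB1
  rw [coeff_zero_eq_eval_zero] at hA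
  have hc : ContinuousAt (fun ε : ℝ => (D.eval (-(ε * Complex.I)) / A.eval (-(ε * Complex.I))).re)
      0 := by
    refine Complex.continuous_re.continuousAt.comp (ContinuousAt.div ?_ ?_ (by simp [hA]))
    · exact (D.continuous.comp (by fun_prop)).continuousAt
    · exact (A.continuous.comp (by fun_prop)).continuousAt
  have h1 := hc.eventually (lt_mem_nhds (a := 0) (by simp [hA, hB1]))
  obtain ⟨ε, h2, h3⟩ := ((h1.filter_mono (nhdsWithin_le_nhds (s := Set.Ioi 0))).and
    self_mem_nhdsWithin).exists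
  have h4 : 0 < ε := h3
  refine ⟨-(ε * Complex.I), by simpa using h4, ?_⟩
  rw [eval_mul, eval_X, mul_div_assoc]
  simpa using mul_pos h4 h2

end RF2

theorem sF2 : SF2 := by
  intro A B hA hB0 hB1 h w r hw hr h0
  have hA0 : ∀ z : ℂ, z.im < 0 → A.eval z ≠ 0 := fun z hz => by simpa using h 0 z hz
  have hH : IsOpen {z : ℂ | z.im < 0} := isOpen_lt Complex.continuous_im continuous_const
  have h1 : ∀ z : ℂ, z.im < 0 → ∀ t : ℝ, t ≠ 0 → B.eval z / A.eval z ≠ t := by
    intro z hz t ht e
    apply h (-t⁻¹) z hz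
    have ht' : (t : ℂ) ≠ 0 := by exact_mod_cast ht
    rw [(div_eq_iff (hA0 z hz)).1 e]
    push_cast
    field_simp
    ring
  have h2 : ∀ z : ℂ, z.im < 0 → B.eval z / A.eval z ≠ 0 := by
    intro z hz e
    have han : AnalyticAt ℂ (fun u => B.eval u / A.eval u) z :=
      (B.differentiable.analyticAt z).div (A.differentiable.analyticAt z) (hA0 z hz)
    rcases han.eventually_constant_or_nhds_le_map_nhds with k | k
    · have hB : B = 0 := by
        refine eq_zero_of_infinite_isRoot B (infinite_of_mem_nhds z ?_)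
        filter_upwards [k, hH.mem_nhds hz] with u hu hu'
        rw [e] at hu
        exact (div_eq_zero_iff.1 hu).resolve_right (hA0 u hu')
      simp [hB] at hB1
    · rw [e] at k
      have k1 := k (image_mem_map (hH.mem_nhds hz))
      have k2 : Tendsto (fun t : ℝ => (t : ℂ)) (𝓝[≠] 0) (𝓝 0) :=
        (Complex.continuous_ofReal.tendsto' 0 0 (by simp)).mono_left nhdsWithin_le_nhds
      obtain ⟨t, ⟨u, hu, hu'⟩, ht⟩ := ((k2.eventually k1).and self_mem_nhdsWithin).exists
      exact h1 u hu t ht hu'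
  have h3 : ∀ z : ℂ, z.im < 0 → (B.eval z / A.eval z).im ≠ 0 := by
    intro z hz e
    have e' : B.eval z / A.eval z = ((B.eval z / A.eval z).re : ℂ) := Complex.ext rfl (by simpa using e)
    refine h1 z hz _ (fun k => h2 z hz ?_) e'
    rw [e', k, Complex.ofReal_zero]
  obtain ⟨s, hs, hs'⟩ := RF2.start A B hA hB0 hB1
  have hw0 : w ≠ 0 := by
    rintro rfl
    exact hA0 r hr (by simpa using h0)
  have h4 : 0 ≤ (B.eval r / A.eval r).im := by
    have e : B.eval r / A.eval r = -w⁻¹ := by
      rw [div_eq_iff (hA0 r hr), eq_neg_of_add_eq_zero_left h0]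
      field_simp
    rw [e, Complex.neg_im, Complex.inv_im, neg_div, neg_neg]
    exact div_nonneg hw (Complex.normSq_nonneg w)
  have hc : ContinuousOn (fun z : ℂ => (B.eval z / A.eval z).im) {z : ℂ | z.im < 0} :=
    Complex.continuous_im.comp_continuousOn
      (B.continuous.continuousOn.div A.continuous.continuousOn hA0)
  obtain ⟨z, hz, hz'⟩ := (convex_halfSpace_im_lt 0).isPreconnected.intermediate_value hs hr hc
    ⟨hs'.le, h4⟩
  exact h3 z hz hz'

theorem sBd : SBd := by
  have hc : ∀ (d : ℕ) (p : ℂ[X]), p.natDegree = 0 → p.coeff 0 = 1 → ∀ τ : ℂ, 0 < τ.im →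
      τ.im ^ d ≤ ‖τ ^ d * p.eval τ⁻¹‖ := by
    intro d p hp h1 τ hτ
    rw [eq_C_of_natDegree_eq_zero hp, h1, eval_C, mul_one, norm_pow]
    exact pow_le_pow_left₀ hτ.le (Complex.im_le_norm τ) d
  intro d
  induction d with
  | zero => exact fun p hp h1 _ => hc 0 p (Nat.le_zero.1 hp) h1
  | succ d ih =>
    intro p hp h1 hz τ hτ
    by_cases h0 : p.natDegree = 0
    · exact hc _ p h0 h1 τ hτ
    obtain ⟨z, hr⟩ := Complex.exists_root (f := p) (natDegree_pos_iff_degree_pos.1
      (Nat.pos_of_ne_zero h0))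
    have hzi : 0 ≤ z.im := not_lt.1 fun k => hz z k hr
    obtain ⟨q, rfl⟩ := dvd_iff_isRoot.2 hr
    have hq0 : q ≠ 0 := by
      rintro rfl
      simp at h1
    have h2 : -z * q.coeff 0 = 1 := by simpa using h1
    have hz0 : z ≠ 0 := by
      rintro rfl
      simp at h2
    have hτ0 : τ ≠ 0 := by
      rintro rfl
      simp at hτ
    rw [natDegree_mul (X_sub_C_ne_zero z) hq0, natDegree_X_sub_C] at hp
    have h3 := ih (C (-z) * q) ((natDegree_C_mul_le _ _).trans (by omega))
      (by rw [coeff_C_mul, h2]) (fun r hr' => by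
        rw [eval_mul, eval_C]
        exact mul_ne_zero (neg_ne_zero.2 hz0) fun k => hz r hr' (by rw [eval_mul, k, mul_zero]))
      τ hτ
    have e : τ ^ (d + 1) * ((X - C z) * q).eval τ⁻¹ =
        τ ^ d * (C (-z) * q).eval τ⁻¹ * (τ - z⁻¹) := by
      simp only [eval_mul, eval_sub, eval_X, eval_C]
      field_simp
      ring
    rw [e, norm_mul, pow_succ]
    refine mul_le_mul h3 (le_trans ?_ (Complex.im_le_norm _)) hτ.le (norm_nonneg _)
    rw [Complex.sub_im, Complex.inv_im, neg_div, sub_neg_eq_add]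
    exact le_add_of_nonneg_right (div_nonneg hzi (Complex.normSq_nonneg z))

end Pool.Agent.MP_3d209c_an.H69
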