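import Pool.Agent.MP_3d209c_an.H69.Spec

/-! Pencils without zeros in a half plane, and the lower bound for polynomials. -/

namespace Pool.Agent.MP_3d209c_an.H69

open Polynomial Filter Topology

theorem sF2' : SF2 := by
  intro A B hA hB0 hB1 h
  have hA' : ∀ r : ℂ, r.im < 0 → A.eval r ≠ 0 := fun r hr => by simpa using h 0 r hr
  let f : ℂ → ℂ := fun r => B.eval r / A.eval r
  have hf : ∀ r : ℂ, r.im < 0 → AnalyticAt ℂ f r := fun r hr =>
    (B.differentiable.analyticAt r).div (A.differentiable.analyticAt r) (hA' r hr)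
  have hreal : ∀ r : ℂ, r.im < 0 → ∀ t : ℝ, t ≠ 0 → f r ≠ t := fun r hr t ht h1 => by
    refine h (-t⁻¹) r hr ?_
    have h2 : (t : ℂ) ≠ 0 := by exact_mod_cast ht
    rw [(div_eq_iff (hA' r hr)).1 h1]
    push_cast
    field_simp
    ring
  have ho : IsOpen {r : ℂ | r.im < 0} := isOpen_lt Complex.continuous_im continuous_const
  have hne : ∀ r : ℂ, r.im < 0 → (f r).im ≠ 0 := fun r hr h1 => by
    have h2 : f r = 0 := by
      by_contra h2
      exact hreal r hr (f r).re (fun h3 => h2 (Complex.ext h3 h1)) (Complex.ext rfl h1)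
    rcases (hf r hr).eventually_constant_or_nhds_le_map_nhds with h3 | h3
    · have h4 : ∀ᶠ z in 𝓝 r, B.eval z = 0 := by
        filter_upwards [h3, ho.mem_nhds hr] with z h5 h6
        exact (div_eq_zero_iff.1 (h5.trans h2)).resolve_right (hA' z h6)
      have h5 : B = 0 := B.eq_zero_of_infinite_isRoot (infinite_of_mem_nhds r h4)
      simp [h5] at hB1
    · have h4 : f '' {r : ℂ | r.im < 0} ∈ 𝓝 ((0 : ℝ) : ℂ) := by
        rw [Complex.ofReal_zero, ← h2]
        exact h3 (image_mem_map (ho.mem_nhds hr))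
      obtain ⟨t, ⟨z, hz, h5⟩, ht⟩ := ((Filter.Eventually.filter_mono nhdsWithin_le_nhds
        (Complex.continuous_ofReal.continuousAt.preimage_mem_nhds h4)).and
        (self_mem_nhdsWithin (s := {0}ᶜ))).exists
      exact hreal z hz t ht h5
  obtain ⟨B₁, rfl⟩ := X_dvd_iff.2 hB0
  rw [coeff_X_mul, coeff_zero_eq_eval_zero] at hB1
  rw [coeff_zero_eq_eval_zero] at hA
  obtain ⟨ε, hε, hε0⟩ : ∃ ε : ℝ, 0 < (B₁.eval (-ε * Complex.I) / A.eval (-ε * Complex.I)).re ∧
      0 < ε := by
    have h1 : ContinuousAt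
        (fun ε : ℝ => (B₁.eval (-ε * Complex.I) / A.eval (-ε * Complex.I)).re) 0 :=
      Complex.continuous_re.continuousAt.comp (ContinuousAt.div (by fun_prop) (by fun_prop)
        (by simp [hA]))
    exact (((h1.eventually (lt_mem_nhds (by simp [hA, hB1]))).filter_mono
      nhdsWithin_le_nhds).and (self_mem_nhdsWithin (s := Set.Ioi 0))).exists
  have h1 : (f (-ε * Complex.I)).im < 0 := by
    simp only [f, eval_mul, eval_X, mul_div_assoc]
    generalize B₁.eval (-ε * Complex.I) / A.eval (-ε * Complex.I) = c at hε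
    simpa using mul_pos hε0 hε
  intro w r hw hr h2
  have hw0 : w ≠ 0 := by rintro rfl; exact hA' r hr (by simpa using h2)
  have h3 : f r = -w⁻¹ := by
    rw [div_eq_iff (hA' r hr), eq_neg_of_add_eq_zero_left h2]
    field_simp
  have h4 : 0 ≤ (f r).im := by
    rw [h3, Complex.neg_im, Complex.inv_im, neg_div, neg_neg]
    exact div_nonneg hw (Complex.normSq_nonneg _)
  obtain ⟨z, hz, h5⟩ := (convex_halfSpace_im_lt 0).isPreconnected.intermediate_value
    (a := -ε * Complex.I) (b := r) (by simpa using hε0) hr (f := fun r => (f r).im)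
    (fun z hz => (Complex.continuous_im.continuousAt.comp
      (hf z hz).continuousAt).continuousWithinAt) ⟨h1.le, h4⟩
  exact hne z hz h5

theorem sBd' : SBd := by
  have hconst : ∀ (d : ℕ) (p : ℂ[X]), p.natDegree = 0 → p.coeff 0 = 1 → ∀ τ : ℂ, 0 < τ.im →
      τ.im ^ d ≤ ‖τ ^ d * p.eval τ⁻¹‖ := fun d p hp h1 τ hτ => by
    rw [eq_C_of_natDegree_eq_zero hp, h1, eval_C, mul_one, norm_pow]
    exact pow_le_pow_left₀ hτ.le (Complex.im_le_norm τ) d
  intro d
  induction d with
  | zero => exact fun p hp h1 _ => hconst 0 p (Nat.le_zero.1 hp) h1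
  | succ d ih =>
    intro p hp h1 hz τ hτ
    by_cases h0 : p.natDegree = 0
    · exact hconst _ p h0 h1 τ hτ
    obtain ⟨r, hr⟩ := Complex.exists_root (f := p) (natDegree_pos_iff_degree_pos.1
      (Nat.pos_of_ne_zero h0))
    have hri : 0 ≤ r.im := not_lt.1 fun h => hz r h hr
    obtain ⟨q, rfl⟩ := dvd_iff_isRoot.2 hr
    have hq0 : q ≠ 0 := by rintro rfl; simp at h1
    rw [natDegree_mul (X_sub_C_ne_zero r) hq0, natDegree_X_sub_C] at hp
    have hr0 : r ≠ 0 := by rintro rfl; simp at h1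
    have hτ0 : τ ≠ 0 := by rintro rfl; simp at hτ
    have h2 := ih (C (-r) * q) ((natDegree_C_mul_le _ _).trans (by omega)) (by simpa using h1)
      (fun z h3 h4 => hz z h3 (by simp_all)) τ hτ
    have h3 : τ ^ (d + 1) * ((X - C r) * q).eval τ⁻¹
        = (τ ^ d * (C (-r) * q).eval τ⁻¹) * (τ - r⁻¹) := by
      simp only [eval_mul, eval_sub, eval_X, eval_C]
      field_simp
      ring
    rw [h3, norm_mul, pow_succ]
    refine mul_le_mul h2 (le_trans ?_ (Complex.im_le_norm _)) hτ.le (norm_nonneg _)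
    rw [Complex.sub_im, Complex.inv_im, neg_div, sub_neg_eq_add]
    exact le_add_of_nonneg_right (div_nonneg hri (Complex.normSq_nonneg _))

end Pool.Agent.MP_3d209c_an.H69
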