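import Pool.Agent.MP_3d209c_an.H69.Spec

/-! The fibrewise form of the pencil case. -/

namespace Pool.Agent.MP_3d209c_an.H69

open MvPolynomial Pool.Agent.MP_3d209c_an.H71 Filter Topology

namespace RFib

variable {n : ℕ}

theorem wr (k : ℕ) (μ C : MP n →ₗ[ℝ] ℝ) {u m l1 : Vc n} (hu : u ≠ 0) (hm : m ⬝ᵥ u = 0)
    (hz : ∀ v p, v ⬝ᵥ u ≠ 0 → p ⬝ᵥ u ≠ 0 → C (lin v * lin p ^ k) = 0 → μ (lin v * lin p ^ k) = 0)
    (hc : C (lin m * lin l1 ^ k) ≠ 0) (l l' : Vc n) :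
    μ (lin l ^ (k + 1)) * C (lin l' ^ (k + 1)) = μ (lin l' ^ (k + 1)) * C (lin l ^ (k + 1)) := by
  have an1 : ∀ (D : MP n →ₗ[ℝ] ℝ) x, AnalyticAt ℝ
      (fun p : Vc n × Vc n => D (lin m * lin p.2 ^ k)) x := fun D x =>
    analytic_snd k (D ∘ₗ LinearMap.mulLeft ℝ (lin m)) x
  have an2 : ∀ x, AnalyticAt ℝ (fun p : Vc n × Vc n =>
      C (lin m * lin p.2 ^ k) * μ (lin p.1 * lin p.2 ^ k)
        - C (lin p.1 * lin p.2 ^ k) * μ (lin m * lin p.2 ^ k)) x := fun x =>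
    ((an1 C x).mul (analytic_pair _ μ x)).sub ((analytic_pair _ C x).mul (an1 μ x))
  have g1 := an_cancel (an1 C) an2 (an_zero (fun x => (an1 C x).mul (an2 x))
    ((eventually_dot2 hu).mono fun p hp => by
      by_cases hp0 : C (lin m * lin p.2 ^ k) = 0
      · simp only [hp0, zero_mul]
      set r := C (lin p.1 * lin p.2 ^ k) / C (lin m * lin p.2 ^ k) with hr
      have e3 : lin (p.1 - r • m) * lin p.2 ^ k
          = lin p.1 * lin p.2 ^ k - r • (lin m * lin p.2 ^ k) := by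
        rw [lin_sub, lin_smul, sub_mul, smul_mul_assoc]
      have e5 := hz (p.1 - r • m) p.2 (by simpa [hm] using hp.1) hp.2 (by
        rw [e3, map_sub, map_smul, smul_eq_mul, hr]
        field_simp
        ring)
      rw [e3, map_sub, map_smul, smul_eq_mul, sub_eq_zero] at e5
      rw [e5, hr]
      field_simp
      ring)) (x0 := (m, l1)) hc
  have g2 := an_cancel (g := fun p : Vc n × Vc n =>
      μ (lin p.1 * lin p.2 ^ k) * C (lin p.2 ^ (k + 1))
        - μ (lin p.2 ^ (k + 1)) * C (lin p.1 * lin p.2 ^ k)) (an1 C)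
    (fun x => ((analytic_pair _ μ x).mul (analytic_snd _ C x)).sub
      ((analytic_snd _ μ x).mul (analytic_pair _ C x))) (fun p => by
      have e3 := g1 p
      have e4 := g1 (p.2, p.2)
      simp only [← pow_succ'] at e4
      linear_combination C (lin p.2 ^ (k + 1)) * e3
        - C (lin p.1 * lin p.2 ^ k) * e4) (x0 := (m, l1)) hc
  exact prop_of_wronskian k μ C (fun u l => sub_eq_zero.1 (g2 (u, l))) l l'

theorem core (k : ℕ) (W K : MP n →ₗ[ℝ] ℝ) {u s m₁ m₂ l : Vc n} (hs : s ⬝ᵥ u = 1)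
    (h1 : m₁ ⬝ᵥ u = 0) (h2 : m₂ ⬝ᵥ u = 0)
    (H : ∀ x g, x ⬝ᵥ u = 0 → Pr (NV {u}) (k + 1) g → K (lin x * g) = 0 → W (lin x * g) = 0)
    (hc : K (lin m₁ * (lin m₂ * lin l ^ k)) ≠ 0) :
    ∃ q : ℝ, ∀ f : MP n, f.IsHomogeneous (k + 2) → eval u f = 0 → W f = q * K f := by
  have hu : u ≠ 0 := by rintro rfl; simp at hs
  have hw := wr k (W ∘ₗ LinearMap.mulLeft ℝ (lin m₁)) (K ∘ₗ LinearMap.mulLeft ℝ (lin m₁)) hu h2
    (fun v p hv hp h0 => H m₁ _ h1 (Pr.cons (mem_NV1.2 hv) (Pr.pow (mem_NV1.2 hp) k)) h0) hc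
  simp only [LinearMap.comp_apply, LinearMap.mulLeft_apply] at hw
  obtain ⟨p0, h0⟩ : ∃ p0, K (lin m₁ * lin p0 ^ (k + 1)) ≠ 0 := by
    by_contra hn
    push Not at hn
    exact hc (span_pow (k + 1) (K ∘ₗ LinearMap.mulLeft ℝ (lin m₁)) hn _
      (hom_lin_mul m₂ (hom_pow l k)))
  refine ⟨W (lin m₁ * lin p0 ^ (k + 1)) / K (lin m₁ * lin p0 ^ (k + 1)), fun f hf hf0 => ?_⟩
  set q := W (lin m₁ * lin p0 ^ (k + 1)) / K (lin m₁ * lin p0 ^ (k + 1)) with hq
  have hm : ∀ p, W (lin m₁ * lin p ^ (k + 1)) = q * K (lin m₁ * lin p ^ (k + 1)) := by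
    intro p
    rw [hq, div_mul_eq_mul_div, eq_div_iff h0]
    exact hw p p0
  have hi : ∀ x, x ⬝ᵥ u = 0 → ∀ p, W (lin x * lin p ^ (k + 1)) * K (lin m₁ * lin p ^ (k + 1))
      - W (lin m₁ * lin p ^ (k + 1)) * K (lin x * lin p ^ (k + 1)) = 0 := by
    intro x hx
    refine an_zero (fun y => ((analytic_pow' _ W _ y).mul (analytic_pow' _ K _ y)).sub
      ((analytic_pow' _ W _ y).mul (analytic_pow' _ K _ y))) ((eventually_dot hu).mono
        fun p hp => ?_)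
    have e : lin (K (lin m₁ * lin p ^ (k + 1)) • x - K (lin x * lin p ^ (k + 1)) • m₁)
        * lin p ^ (k + 1) = K (lin m₁ * lin p ^ (k + 1)) • (lin x * lin p ^ (k + 1))
          - K (lin x * lin p ^ (k + 1)) • (lin m₁ * lin p ^ (k + 1)) := by
      rw [lin_sub, lin_smul, lin_smul, sub_mul, smul_mul_assoc, smul_mul_assoc]
    have e1 := H (K (lin m₁ * lin p ^ (k + 1)) • x - K (lin x * lin p ^ (k + 1)) • m₁) _
      (by simp [hx, h1]) (Pr.pow (mem_NV1.2 hp) (k + 1)) (by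
        rw [e, map_sub, map_smul, map_smul, smul_eq_mul, smul_eq_mul]; ring)
    rw [e, map_sub, map_smul, map_smul, smul_eq_mul, smul_eq_mul] at e1
    linear_combination e1
  have hall : ∀ x, x ⬝ᵥ u = 0 → ∀ p, (W - q • K) (lin x * lin p ^ (k + 1)) = 0 := by
    intro x hx
    refine an_cancel (analytic_pow' (k + 1) K (lin m₁)) (analytic_pow' (k + 1) (W - q • K) (lin x))
      (fun p => ?_) h0
    have e1 := hi x hx p
    rw [hm p] at e1
    simp only [LinearMap.sub_apply, LinearMap.smul_apply, smul_eq_mul]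
    linear_combination e1
  have := eval_of_perp (k + 1) (W - q • K) hs hall f hf
  rw [hf0, zero_mul] at this
  simp only [LinearMap.sub_apply, LinearMap.smul_apply, smul_eq_mul] at this
  linarith

end RFib

theorem sFib (h : SKern) : SFib := by
  intro n m k d' T u s m₁ m₂ l e z hR h1 h2 hc
  let K : MP n →ₗ[ℝ] ℝ := (dotProductBilin ℝ ℝ).flip z ∘ₗ grad e ∘ₗ T
  have hK : ∀ f, K f = grad e (T f) ⬝ᵥ z := fun f => rfl
  obtain ⟨q, hq⟩ := RFib.core k (evl z ∘ₗ T) K (l := l) hR.hs h1 h2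
    (fun x g hx hg h0 => by
      simpa [evl_apply] using h n m (k + 1) d' T u s x e z g hR hx hg h0) hc
  exact ⟨q, fun f hf hf0 => by simpa [evl_apply, hK] using hq f hf hf0⟩

end Pool.Agent.MP_3d209c_an.H69
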