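import Pool.Agent.MP_3d209c_an.H69.Spec

/-! Grading of the image and divisibility by powers of a linear form. -/

namespace Pool.Agent.MP_3d209c_an.H69

open Pool.Agent.MP_3d209c_an.H71 MvPolynomial Filter Topology

namespace RGraded

theorem hom_of_comp {m j0 : ℕ} {F : MP m} (h : ∀ j, j ≠ j0 → homogeneousComponent j F = 0) :
    F.IsHomogeneous j0 := by
  intro s hs
  by_contra hne
  apply hs
  have := coeff_homogeneousComponent s.degree F s
  rw [h _ (by rw [Finsupp.degree_eq_weight_one]; exact hne), if_pos rfl] at this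
  simpa using this.symm

theorem cont_eval {m : ℕ} (z a : Vc m) (H : MP m) :
    Continuous fun ρ : ℝ => eval (z + ρ • a) H := by
  simp only [← eval_rp]
  exact Polynomial.continuous _

end RGraded

open RGraded

theorem sGraded : SGraded := by
  intro n m d N T hN h
  have key : ∀ j j', j ≠ j' → ∀ (ψ ψ' : MP m →ₗ[ℝ] ℝ) (l : Vc n),
      (ψ ∘ₗ homogeneousComponent j ∘ₗ T) (lin l ^ d) *
        (ψ' ∘ₗ homogeneousComponent j' ∘ₗ T) (lin l ^ d) = 0 := by
    intro j j' hj ψ ψ' l
    refine Pr.ext hN (φ := fun g => (ψ ∘ₗ homogeneousComponent j ∘ₗ T) g *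
      (ψ' ∘ₗ homogeneousComponent j' ∘ₗ T) g = 0) (fun g => ?_) (fun g hg => ?_)
      (Pr.pow (Set.mem_univ l) d)
    · exact isClosed_eq ((continuous_lin_mul _ g).mul (continuous_lin_mul _ g)) continuous_const
    · obtain ⟨i, hi⟩ := h g hg
      simp only [LinearMap.comp_apply, homogeneousComponent_of_mem hi]
      by_cases hji : j = i
      · rw [if_neg (show ¬ j' = i from fun h' => hj (hji.trans h'.symm)), map_zero, mul_zero]
      · rw [if_neg hji, map_zero, zero_mul]
  by_cases h0 : ∃ (l : Vc n) (j : ℕ) (ψ : MP m →ₗ[ℝ] ℝ),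
      (ψ ∘ₗ homogeneousComponent j ∘ₗ T) (lin l ^ d) ≠ 0
  · obtain ⟨l0, j0, ψ, h0⟩ := h0
    refine ⟨j0, fun f hf => hom_of_comp fun j hj => ?_⟩
    rw [← Module.forall_dual_apply_eq_zero_iff ℝ]
    intro ψ'
    exact span_pow d (ψ' ∘ₗ homogeneousComponent j ∘ₗ T)
      (an_cancel (analytic_pow d _) (analytic_pow d _) (key j0 j hj.symm ψ ψ') h0) f hf
  · push Not at h0
    refine ⟨0, fun f hf => hom_of_comp fun j _ => ?_⟩
    rw [← Module.forall_dual_apply_eq_zero_iff ℝ]
    intro ψ'
    exact span_pow d (ψ' ∘ₗ homogeneousComponent j ∘ₗ T) (fun l => h0 l j ψ') f hf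

theorem sDiv0 : SDiv0 := by
  intro m v H hv h
  obtain ⟨a, ha⟩ : ∃ a : Vc m, v ⬝ᵥ a = 1 := ⟨(v ⬝ᵥ v)⁻¹ • v, by
    rw [dotProduct_smul, smul_eq_mul, inv_mul_cancel₀ (mt dotProduct_self_eq_zero.1 hv)]⟩
  let P : MP m →ₐ[ℝ] MP m := aeval fun i => X i - C (a i) * lin v
  have h1 : ∀ F : MP m, lin v ∣ F - P F := by
    intro F
    induction F using MvPolynomial.induction_on with
    | C c => simp [P]
    | add p q hp hq =>
      rw [map_add, add_sub_add_comm]
      exact dvd_add hp hq
    | mul_X p i hp =>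
      have : p * X i - P (p * X i) = (p - P p) * X i + lin v * (P p * C (a i)) := by
        rw [map_mul]
        simp only [P, aeval_X]
        ring
      rw [this]
      exact dvd_add (hp.mul_right _) (dvd_mul_right _ _)
  have h2 : ∀ (z : Vc m) (F : MP m), eval z (P F) = eval (z - (v ⬝ᵥ z) • a) F := by
    intro z F
    induction F using MvPolynomial.induction_on with
    | C c => simp [P]
    | add p q hp hq => simp only [map_add, hp, hq]
    | mul_X p i hp =>
      simp only [map_mul, hp]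
      simp [P, eval_lin, mul_comm]
  have h3 : P H = 0 := MvPolynomial.funext fun z => by
    rw [h2, map_zero]
    exact h _ (by simp [ha])
  simpa [h3] using h1 H

theorem sDivJ : SDivJ := by
  intro m j v a H ha
  have hv : v ≠ 0 := by
    rintro rfl
    simp at ha
  induction j generalizing H with
  | zero => intro _; simp
  | succ j ih =>
    intro h
    obtain ⟨G, rfl⟩ : lin v ∣ H := by
      refine sDiv0 m v H hv fun z hz => ?_
      obtain ⟨B, hB⟩ := h z hz
      have t1 : Tendsto (fun ρ : ℝ => |eval (z + ρ • a) H|) (𝓝[>] 0) (𝓝 |eval z H|) := by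
        have := ((cont_eval z a H).abs.tendsto 0).mono_left (nhdsWithin_le_nhds (s := Set.Ioi 0))
        simpa using this
      have t2 : Tendsto (fun ρ : ℝ => B * ρ ^ (j + 1)) (𝓝[>] 0) (𝓝 0) := by
        have c : Continuous fun ρ : ℝ => B * ρ ^ (j + 1) := by fun_prop
        have := (c.tendsto 0).mono_left (nhdsWithin_le_nhds (s := Set.Ioi 0))
        simpa using this
      have := le_of_tendsto_of_tendsto t1 t2 (by
        filter_upwards [Ioc_mem_nhdsGT (zero_lt_one' ℝ)] with ρ hρ using hB ρ hρ)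
      exact abs_nonpos_iff.1 this
    rw [pow_succ']
    refine mul_dvd_mul_left _ (ih G fun z hz => ?_)
    obtain ⟨B, hB⟩ := h z hz
    refine ⟨B, fun ρ hρ => ?_⟩
    have h1 := hB ρ hρ
    rw [map_mul, eval_lin, dotProduct_add, dotProduct_smul, hz, ha, zero_add, smul_eq_mul,
      mul_one, abs_mul, abs_of_pos hρ.1, pow_succ', mul_left_comm] at h1
    exact le_of_mul_le_mul_left h1 hρ.1

end Pool.Agent.MP_3d209c_an.H69
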