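import Pool.Agent.MP_3d209c_an.H69.Spec

/-! The coincidence theorem for the closed upper half plane, and stability of a symbol. -/

namespace Pool.Agent.MP_3d209c_an.H69

open Pool.Agent.MP_3d209c_an.H71 Polynomial

namespace RGws

theorem sum_ne {ι : Type} [Fintype ι] (v : ι → ℂ) {N : ℕ} (hN : Fintype.card ι ≤ N) (hN1 : 1 ≤ N)
    {w ζ : ℂ} (hw : 0 ≤ w.im) (hζ : 0 ≤ ζ.im)
    (hv : ∀ i, w.im * ((v i).re ^ 2 + (v i).im ^ 2) < -(v i).im) :
    (N : ℂ) + (ζ - w) * ∑ i, v i ≠ 0 := by
  intro h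
  have hN0 : (0 : ℝ) < N := by exact_mod_cast hN1
  rcases isEmpty_or_nonempty ι with hι | hι
  · rw [Finset.univ_eq_empty, Finset.sum_empty, mul_zero, add_zero, Nat.cast_eq_zero] at h
    omega
  have h1 := Finset.sum_lt_sum_of_nonempty Finset.univ_nonempty fun i _ => hv i
  rw [← Finset.mul_sum, Finset.sum_add_distrib, Finset.sum_neg_distrib] at h1
  have h2 := sq_sum_le_card_mul_sum_sq (s := Finset.univ) (f := fun i => (v i).re)
  have h3 := sq_sum_le_card_mul_sum_sq (s := Finset.univ) (f := fun i => (v i).im)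
  have h4 : ((Finset.univ : Finset ι).card : ℝ) ≤ N := by exact_mod_cast hN
  have h5 : 0 ≤ ∑ i, (v i).re ^ 2 := by positivity
  have h6 : 0 ≤ ∑ i, (v i).im ^ 2 := by positivity
  have h7 := congrArg Complex.re h
  have h8 := congrArg Complex.im h
  simp only [Complex.add_re, Complex.add_im, Complex.mul_re, Complex.mul_im, Complex.natCast_re,
    Complex.natCast_im, Complex.re_sum, Complex.im_sum, Complex.sub_re, Complex.sub_im,
    Complex.zero_re, Complex.zero_im] at h7 h8
  have h9 := h2.trans (mul_le_mul_of_nonneg_right h4 h5)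
  have h10 := h3.trans (mul_le_mul_of_nonneg_right h4 h6)
  generalize ∑ i, (v i).re = x at *
  generalize ∑ i, (v i).im = y at *
  generalize ∑ i, (v i).re ^ 2 = a at *
  generalize ∑ i, (v i).im ^ 2 = b at *
  have e : (ζ.im - w.im) * (x ^ 2 + y ^ 2) = N * y := by linear_combination x * h8 - y * h7
  have k1 := mul_lt_mul_of_pos_left h1 hN0
  have k2 := mul_le_mul_of_nonneg_left (add_le_add h9 h10) hw
  have k3 : 0 ≤ ζ.im * (x ^ 2 + y ^ 2) := by positivity
  nlinarith

theorem laguerre (p : ℂ[X]) {N : ℕ} (hN : p.natDegree ≤ N) (hN1 : 1 ≤ N)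
    (hp : ∀ z : ℂ, 0 ≤ z.im → p.eval z ≠ 0) {w ζ : ℂ} (hw : 0 ≤ w.im) (hζ : 0 ≤ ζ.im) :
    N * p.eval w + (ζ - w) * p.derivative.eval w ≠ 0 := by
  classical
  have h0 := hp w hw
  have h1 := (IsAlgClosed.splits p).eval_derivative_div_eval_of_ne_zero h0
  rw [Multiset.sum_eq_sum_coe] at h1
  have h2 := sum_ne (fun x : (p.roots.map fun z => 1 / (w - z)).ToType => (x : ℂ)) (N := N)
    (by rw [Multiset.card_coe, Multiset.card_map]; exact (card_roots' p).trans hN) hN1 hw hζ ?_
  · rw [← h1] at h2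
    intro h
    apply h2
    field_simp
    exact h.trans (by simp)
  · intro x
    obtain ⟨r, hr, e⟩ := Multiset.mem_map.1 (Multiset.coe_mem (x := x))
    have h3 : r.im < 0 := by
      by_contra h4
      exact hp r (not_lt.1 h4) (isRoot_of_mem_roots hr)
    have h4 : w.im < (w - r).im := by
      rw [Complex.sub_im]
      linarith
    have h5 : 0 < Complex.normSq (w - r) := Complex.normSq_pos.2 fun h => by
      rw [h, Complex.zero_im] at h4
      linarith
    rw [← e, one_div]
    generalize w - r = u at *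
    have h6 : u⁻¹.re ^ 2 + u⁻¹.im ^ 2 = (Complex.normSq u)⁻¹ := by
      rw [← map_inv₀, Complex.normSq_apply]
      ring
    rw [h6, Complex.inv_im, neg_div, neg_neg, div_eq_mul_inv]
    exact mul_lt_mul_of_pos_right h4 (inv_pos.2 h5)

theorem exists_poly (d : ℕ) (L : ℂ[X] →ₗ[ℂ] ℂ) : ∃ p : ℂ[X], p.natDegree ≤ d ∧ ∀ w : ℂ,
    p.eval w = L ((1 + C w * X) ^ d) ∧
      p.derivative.eval w = d * L (X * (1 + C w * X) ^ (d - 1)) := by
  induction d generalizing L with
  | zero => exact ⟨C (L 1), by simp, fun w => by simp⟩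
  | succ d ih =>
    obtain ⟨p, h1, h2⟩ := ih L
    obtain ⟨q, h3, h4⟩ := ih (L ∘ₗ LinearMap.mulLeft ℂ X)
    simp only [LinearMap.comp_apply, LinearMap.mulLeft_apply] at h4
    have key : ∀ (w : ℂ) (f : ℂ[X]), L ((1 + C w * X) * f) = L f + w * L (X * f) := by
      intro w f
      rw [add_mul, one_mul, map_add, mul_assoc, ← smul_eq_C_mul, map_smul, smul_eq_mul]
    refine ⟨p + X * q, natDegree_add_le_of_degree_le (by omega)
      (natDegree_mul_le.trans (by rw [natDegree_X]; omega)), fun w => ⟨?_, ?_⟩⟩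
    · rw [eval_add, eval_mul, eval_X, (h2 w).1, (h4 w).1, pow_succ', key]
    · rw [derivative_add, derivative_mul, derivative_X, one_mul, eval_add, eval_add, eval_mul,
        eval_X, (h2 w).2, (h4 w).1, (h4 w).2, Nat.add_sub_cancel]
      rcases d with _ | d
      · simp
      · rw [Nat.add_sub_cancel, pow_succ', mul_left_comm X, key]
        push_cast
        ring

end RGws

theorem sGws : SGws := by
  intro d
  induction d with
  | zero =>
    intro L h ζ _
    simpa using h 0 le_rfl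
  | succ d ih =>
    intro L h ζ hζ
    obtain ⟨p, h1, h2⟩ := RGws.exists_poly (d + 1) L
    rw [Fin.prod_univ_succ]
    refine ih (L ∘ₗ LinearMap.mulLeft ℂ (1 + C (ζ 0) * X)) (fun w hw h3 => ?_)
      (fun i => ζ i.succ) fun i => hζ _
    refine RGws.laguerre p h1 (Nat.le_add_left 1 d) (fun z hz => by rw [(h2 z).1]; exact h z hz) hw
      (hζ 0) ?_
    have e : (1 + C (ζ 0) * X) * (1 + C w * X) ^ d =
        (1 + C w * X) ^ (d + 1) + (ζ 0 - w) • (X * (1 + C w * X) ^ d) := by
      rw [smul_eq_C_mul, map_sub]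
      ring
    rw [LinearMap.comp_apply, LinearMap.mulLeft_apply, e, map_add, map_smul, smul_eq_mul] at h3
    rw [(h2 w).1, (h2 w).2, Nat.add_sub_cancel]
    linear_combination ((d + 1 : ℕ) : ℂ) * h3

theorem sSt (h : SF2) : SSt := by
  intro d L h0 h1 h2 w r hw hr
  induction d generalizing L with
  | zero => simpa using h2 Fin.elim0 r hr
  | succ d ih =>
    have key : ∀ (x : ℂ) (f : ℂ[X]) (r : ℂ),
        (L ((1 + C x * X) * f)).eval r = (L f).eval r + x * (L (X * f)).eval r := by
      intro x f r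
      rw [add_mul, one_mul, map_add, mul_assoc, ← smul_eq_C_mul, map_smul, eval_add, eval_smul,
        smul_eq_mul]
    rw [pow_succ']
    refine ih (L ∘ₗ LinearMap.mulLeft ℂ (1 + C w * X)) (fun p => ?_) (fun p => ?_) fun ρ s hs => ?_
    · simp [h0]
    · rw [LinearMap.comp_apply, LinearMap.mulLeft_apply, mul_left_comm, h1]
      simp
    · have hq : (∏ i, (1 + C (ρ i : ℂ) * X)).coeff 0 = 1 := by
        simp [coeff_zero_eq_eval_zero, eval_prod]
      rw [LinearMap.comp_apply, LinearMap.mulLeft_apply, key]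
      refine h _ _ (by rw [h0, hq]) (by simp [h0]) (by rw [h1, hq]) (fun x t ht => ?_) w s hw hs
      have h3 := h2 (Fin.cons x ρ) t ht
      rw [Fin.prod_univ_succ] at h3
      simp only [Fin.cons_zero, Fin.cons_succ] at h3
      rwa [key] at h3

end Pool.Agent.MP_3d209c_an.H69
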