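import Pool.Agent.MP_3d209c_an.H69.Spec

/-! The kernel of the gradient form lies in the zero set of the image. -/

namespace Pool.Agent.MP_3d209c_an.H69

open Pool.Agent.MP_3d209c_an.H71 MvPolynomial

theorem sKern (h : SF1) : SKern := by
  intro n m k d' T u s l e z g hR hl hg hz
  have hc : eval u g ≠ 0 := hg.ev_ne
  have hlg : (lin l * g).IsHomogeneous (k + 1) := hom_lin_mul l hg.hom
  have hQ := h d' (rp e (z - e) ((eval u g)⁻¹ • T (lin s * g)))
    (rp e (z - e) ((eval u g)⁻¹ • T (lin l * g))) (fun r => ?_) ?_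
  · have h1 := eval_rp e (z - e) ((eval u g)⁻¹ • T (lin l * g)) 1
    rw [hQ, one_smul, add_sub_cancel, smul_eval, Polynomial.eval_zero] at h1
    exact (mul_eq_zero.1 h1.symm).resolve_left (inv_ne_zero hc)
  · have hw : (s + r • l) ⬝ᵥ u = 1 := by
      rw [add_dotProduct, smul_dotProduct, hl, hR.hs]; simp
    have hp : Pr (NV {u}) (k + 1) (lin (s + r • l) * g) :=
      Pr.cons (mem_NV1.2 (by rw [hw]; exact one_ne_zero)) hg
    obtain ⟨ρ, hρ⟩ := rp_fac (hom_smul (eval u g)⁻¹ (hR.hom _ hp.hom))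
      (hyp_smul (hR.hyp _ hp) (inv_ne_zero hc))
      (by rw [smul_eval, hR.ev _ hp.hom, map_mul, eval_lin, hw, one_mul, inv_mul_cancel₀ hc])
      (z - e)
    refine ⟨ρ, ?_⟩
    rw [← hρ, lin_add, lin_smul, add_mul, smul_mul_assoc, map_add, map_smul T, smul_add,
      smul_comm _ r, map_add, map_smul (rp e (z - e)) r]
  · rw [rp_coeff1, map_smul, smul_dotProduct, dotProduct_sub, hz, grad_euler (hR.hom _ hlg),
      hR.ev _ hlg, map_mul, eval_lin, hl]
    simp

theorem sK (h : SKern) : SK := by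
  intro n m k d' T u s l e z g hR hF hl hz hg
  have hu : u ≠ 0 := by
    rintro rfl
    simpa using hR.hs
  have h1 : ∀ p, (evl z ∘ₗ T) (lin l * lin p ^ k) = 0 := by
    refine an_zero (analytic_pow' k (evl z ∘ₗ T) (lin l))
      ((eventually_dot hu).mono fun p hp => ?_)
    rw [LinearMap.comp_apply, evl_apply]
    refine h n m k d' T u s l e z _ hR hl (Pr.pow (mem_NV1.2 hp) k) ?_
    rw [hF l hl _ (hom_pow p k), smul_dotProduct, hz, smul_zero]
  have h2 := span_pow k ((evl z ∘ₗ T) ∘ₗ LinearMap.mulLeft ℝ (lin l)) h1 g hg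
  simpa [evl_apply] using h2

end Pool.Agent.MP_3d209c_an.H69
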