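import Pool.Agent.MP_3d209c_an.H69.Spec

/-! The pencil case. -/

namespace Pool.Agent.MP_3d209c_an.H69

open MvPolynomial Pool.Agent.MP_3d209c_an.H71 Filter Topology

namespace RPen

variable {n m k d' : ℕ} {T : MP n →ₗ[ℝ] MP m} {u s : Vc n} {e : Vc m}

theorem lin_ne {v : Vc m} (hv : v ≠ 0) : lin v ≠ 0 := by
  intro h
  have h1 := eval_lin v v
  rw [h, map_zero] at h1
  exact hv (dotProduct_self_eq_zero.1 h1.symm)

theorem psi_e {d : ℕ} (R : Ray T d d' u s e) {f : MP n} (hf : f.IsHomogeneous d)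
    (h0 : eval u f = 0) : grad e (T f) ⬝ᵥ e = 0 := by
  rw [grad_euler (R.hom f hf), R.ev f hf, h0, mul_zero]

theorem step1 (hs : s ⬝ᵥ u = 1) {m₁ m₂ l : Vc n}
    (h : grad e (T (lin m₁ * (lin m₂ * lin l ^ k))) ≠ 0) :
    ∃ l', l' ⬝ᵥ u = 1 ∧ grad e (T (lin m₁ * (lin m₂ * lin l' ^ k))) ≠ 0 := by
  by_contra hc
  push Not at hc
  have hu : u ≠ 0 := by
    rintro rfl
    simp at hs
  apply h
  funext i
  have h1 := an_zero (analytic_pow' k (LinearMap.proj i ∘ₗ grad e ∘ₗ T) (lin m₁ * lin m₂))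
    ((eventually_dot hu).mono fun x hx => ?_) l
  · simpa [mul_assoc] using h1
  · have h2 := hc ((x ⬝ᵥ u)⁻¹ • x) (by rw [smul_dotProduct, smul_eq_mul, inv_mul_cancel₀ hx])
    rw [lin_smul, smul_pow, mul_smul_comm, mul_smul_comm, map_smul, map_smul, smul_eq_zero] at h2
    have h3 := h2.resolve_left (pow_ne_zero _ (inv_ne_zero hx))
    simp [mul_assoc, h3]

theorem pr2 {a b l : Vc n} (ha : a ⬝ᵥ u = 1) (hb : b ⬝ᵥ u = 1) (hl : l ⬝ᵥ u = 1) :
    Pr (NV {u}) (k + 2) (lin a * (lin b * lin l ^ k)) :=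
  Pr.cons (mem_NV1.2 (by rw [ha]; exact one_ne_zero))
    (Pr.cons (mem_NV1.2 (by rw [hb]; exact one_ne_zero))
      (Pr.pow (mem_NV1.2 (by rw [hl]; exact one_ne_zero)) k))

theorem dot_shift {a : Vc n} (hs : s ⬝ᵥ u = 1) (ha : a ⬝ᵥ u = 0) (r : ℝ) :
    (s + r • a) ⬝ᵥ u = 1 := by
  rw [add_dotProduct, smul_dotProduct, hs, ha, smul_zero, add_zero]

theorem hom3 (a b l : Vc n) : (lin a * (lin b * lin l ^ k)).IsHomogeneous (k + 2) :=
  hom_lin_mul _ (hom_lin_mul _ (hom_pow _ _))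

theorem factorQ (h1 : SKern) (h2 : SFib) (h3 : SDiv0) (R : Ray T (k + 2) d' u s e)
    {m₁ m₂ l : Vc n} (hm₁ : m₁ ⬝ᵥ u = 0) (hm₂ : m₂ ⬝ᵥ u = 0) (hl : l ⬝ᵥ u = 1)
    (h0 : grad e (T (lin m₁ * (lin m₂ * lin l ^ k))) ≠ 0) :
    ∃ Q : MP m, ∀ f, f.IsHomogeneous (k + 2) → eval u f = 0 → T f = lin (grad e (T f)) * Q := by
  obtain ⟨r, hr⟩ : ∃ r : ℝ, grad e (T (lin m₁ * (lin (s + r • m₂) * lin l ^ k))) ≠ 0 := by
    by_contra hc
    push Not at hc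
    have a0 := hc 0
    have a1 := hc 1
    rw [zero_smul, add_zero] at a0
    rw [one_smul, lin_add, add_mul, mul_add, map_add, map_add, a0, zero_add] at a1
    exact h0 a1
  have hg : Pr (NV {u}) (k + 1) (lin (s + r • m₂) * lin l ^ k) :=
    Pr.cons (mem_NV1.2 (by rw [dot_shift R.hs hm₂]; exact one_ne_zero))
      (Pr.pow (mem_NV1.2 (by rw [hl]; exact one_ne_zero)) k)
  obtain ⟨Q, hQ⟩ := h3 m _ _ hr fun z hz => h1 n m (k + 1) d' T u s m₁ e z _ R hm₁ hg hz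
  have hf1 := hom3 (k := k) m₁ (s + r • m₂) l
  have e1 : eval u (lin m₁ * (lin (s + r • m₂) * lin l ^ k)) = 0 := by
    rw [map_mul, eval_lin, hm₁, zero_mul]
  generalize lin m₁ * (lin (s + r • m₂) * lin l ^ k) = f₁ at hr hQ hf1 e1
  refine ⟨Q, fun f hf ef => ?_⟩
  have key : lin (grad e (T (lin m₁ * (lin m₂ * lin l ^ k)))) *
      (T f * lin (grad e (T f₁)) - T f₁ * lin (grad e (T f))) = 0 := by
    refine MvPolynomial.funext fun z => ?_
    rw [map_mul, eval_lin, map_zero]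
    by_cases hz : grad e (T (lin m₁ * (lin m₂ * lin l ^ k))) ⬝ᵥ z = 0
    · rw [hz, zero_mul]
    · obtain ⟨q, hq⟩ := h2 n m k d' T u s m₁ m₂ l e z R hm₁ hm₂ hz
      rw [map_sub, map_mul (eval z), map_mul (eval z), eval_lin, eval_lin, hq f hf ef,
        hq f₁ hf1 e1]
      ring
  have k2 := sub_eq_zero.1 ((mul_eq_zero.1 key).resolve_left (lin_ne h0))
  refine mul_right_cancel₀ (lin_ne hr) ?_
  rw [k2]
  generalize grad e (T f₁) = w at hQ ⊢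
  rw [hQ]
  ring

theorem ev_pow (hs : s ⬝ᵥ u = 1) (j : ℕ) : eval u (lin s ^ j) = 1 := by
  rw [map_pow, eval_lin, hs, one_pow]

theorem rep (R : Ray T (k + 2) d' u s e) {Q : MP m}
    (hQ : ∀ f, f.IsHomogeneous (k + 2) → eval u f = 0 → T f = lin (grad e (T f)) * Q)
    {f : MP n} (hf : f.IsHomogeneous (k + 2)) :
    grad e (T (f - eval u f • lin s ^ (k + 2))) ⬝ᵥ e = 0 ∧ T f = eval u f • T (lin s ^ (k + 2)) +
      lin (grad e (T (f - eval u f • lin s ^ (k + 2)))) * Q := by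
  have hh : (f - eval u f • lin s ^ (k + 2)).IsHomogeneous (k + 2) :=
    hf.sub (hom_smul _ (hom_pow _ _))
  have h0 : eval u (f - eval u f • lin s ^ (k + 2)) = 0 := by
    rw [map_sub, smul_eval, ev_pow R.hs, mul_one, sub_self]
  refine ⟨psi_e R hh h0, ?_⟩
  rw [← hQ _ hh h0, map_sub, map_smul]
  abel

theorem bd_gen (R : Ray T (k + 2) d' u s e) {Q : MP m}
    (hQ : ∀ f, f.IsHomogeneous (k + 2) → eval u f = 0 → T f = lin (grad e (T f)) * Q)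
    {m₁ m₂ l : Vc n} (hm₁ : m₁ ⬝ᵥ u = 0) (hm₂ : m₂ ⬝ᵥ u = 0) (hl : l ⬝ᵥ u = 1)
    {v α : Vc m} (hv : v ⬝ᵥ e = 0)
    (hα : grad e (T (lin m₁ * (lin m₂ * lin l ^ k))) ⬝ᵥ α ≠ 0) (τ : ℂ) :
    |τ.im| ^ d' ≤ ‖cev α e τ (T (lin s ^ (k + 2)) + lin v * Q)‖ := by
  obtain ⟨a, ha⟩ : ∃ a : ℝ, grad e (T (lin (s + a • m₁) * (lin m₂ * lin l ^ k))) ⬝ᵥ α ≠ 0 := by
    by_contra hc
    push Not at hc
    have a0 := hc 0
    have a1 := hc 1
    rw [zero_smul, add_zero] at a0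
    rw [one_smul, lin_add, add_mul, map_add, map_add, add_dotProduct, a0, zero_add] at a1
    exact hα a1
  obtain ⟨r, hr⟩ : ∃ r : ℝ, grad e (T (lin (s + a • m₁) * (lin (s + r • m₂) * lin l ^ k)
      - (1 : ℝ) • lin s ^ (k + 2))) ⬝ᵥ α = v ⬝ᵥ α := by
    refine ⟨(v ⬝ᵥ α + grad e (T (lin s ^ (k + 2))) ⬝ᵥ α -
      grad e (T (lin (s + a • m₁) * (lin s * lin l ^ k))) ⬝ᵥ α) /
      grad e (T (lin (s + a • m₁) * (lin m₂ * lin l ^ k))) ⬝ᵥ α, ?_⟩
    rw [one_smul, lin_add s (_ • m₂), lin_smul, add_mul, mul_add, smul_mul_assoc, mul_smul_comm,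
      map_sub, map_sub, map_add, map_add, map_smul, map_smul, sub_dotProduct, add_dotProduct,
      smul_dotProduct, smul_eq_mul, div_mul_cancel₀ _ ha]
    ring
  have hp := pr2 (k := k) (dot_shift R.hs hm₁ a) (dot_shift R.hs hm₂ r) hl
  have e1 : eval u (lin (s + a • m₁) * (lin (s + r • m₂) * lin l ^ k)) = 1 := by
    rw [map_mul, map_mul, ev_pow hl, eval_lin, eval_lin, dot_shift R.hs hm₁, dot_shift R.hs hm₂]
    norm_num
  generalize lin (s + a • m₁) * (lin (s + r • m₂) * lin l ^ k) = f at hr hp e1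
  obtain ⟨w0, hw⟩ := rep R hQ hp.hom
  rw [e1] at w0 hw
  have hb := bd_of_hyp (R.hom f hp.hom) (R.hyp f hp) α τ
  rw [R.ev f hp.hom, e1, abs_one, one_mul, hw, one_smul, map_add, map_mul, cev_lin _ _ _ _ w0,
    hr] at hb
  rw [map_add, map_mul, cev_lin _ _ _ _ hv]
  exact hb

end RPen

open RPen in
theorem sPen (h1 : SKern) (h2 : SFib) (h3 : SDiv0) : SPen := by
  intro n m k d' T u s m₁ m₂ l₀ e R hm₁ hm₂ h00
  obtain ⟨l, hl, h0⟩ := step1 R.hs h00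
  obtain ⟨Q, hQ⟩ := factorQ h1 h2 h3 R hm₁ hm₂ hl h0
  refine ⟨T (lin s ^ (k + 2)), Q, fun v hv => ?_, fun f hf => ⟨_, rep R hQ hf⟩⟩
  have e1 : eval e (T (lin s ^ (k + 2)) + lin v * Q) = 1 := by
    rw [map_add, map_mul, eval_lin, hv, zero_mul, add_zero, R.ev _ (hom_pow _ _), ev_pow R.hs]
  refine hyp_of_bd (d := d') (fun α τ => ?_) (by rw [e1]; exact one_ne_zero)
  rw [e1, abs_one, one_mul]
  by_cases hα : grad e (T (lin m₁ * (lin m₂ * lin l ^ k))) ⬝ᵥ α = 0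
  · set p := grad e (T (lin m₁ * (lin m₂ * lin l ^ k))) with hp
    have hc : Continuous fun ε : ℝ => ‖cev (α + ε • p) e τ (T (lin s ^ (k + 2)) + lin v * Q)‖ :=
      ((continuous_cev e τ _).comp (by fun_prop)).norm
    have ht := (hc.tendsto 0).mono_left (nhdsWithin_le_nhds (s := {0}ᶜ))
    simp only [zero_smul, add_zero] at ht
    refine ge_of_tendsto ht (eventually_nhdsWithin_of_forall fun ε hε => ?_)
    refine bd_gen R hQ hm₁ hm₂ hl hv ?_ τ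
    rw [← hp, dotProduct_add, hα, zero_add, dotProduct_smul, smul_eq_mul]
    exact mul_ne_zero hε (mt dotProduct_self_eq_zero.1 h0)
  · exact bd_gen R hQ hm₁ hm₂ hl hv hα τ

end Pool.Agent.MP_3d209c_an.H69
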