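import Pool.Agent.MP_3d209c_an.H69.Spec

/-! Operators with a zero free symbol preserve hyperbolicity. -/

namespace Pool.Agent.MP_3d209c_an.H69

open Pool.Agent.MP_3d209c_an.H71

namespace RSuf

section Uni

open Polynomial

theorem deg_prod (d : ℕ) (ρ : Fin d → ℝ) : (∏ i, (1 + C (ρ i) * X) : ℝ[X]).natDegree ≤ d := by
  refine (natDegree_prod_le _ _).trans ?_
  refine (Finset.sum_le_card_nsmul _ _ 1 fun i _ => ?_).trans (by simp)
  compute_degree

theorem refl_prod (d : ℕ) (ρ : Fin d → ℝ) :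
    reflect d (∏ i, (1 + C (ρ i) * X) : ℝ[X]) = ∏ i, (X + C (ρ i)) := by
  induction d with
  | zero => simp
  | succ d ih =>
    rw [Fin.prod_univ_castSucc, Fin.prod_univ_castSucc,
      reflect_mul _ _ (deg_prod d _) (by compute_degree), ih, reflect_add, reflect_C_mul,
      reflect_one_X, reflect_one, pow_one, mul_one]

theorem coeff_prod {d j : ℕ} (hj : j ≤ d) (ρ : Fin d → ℝ) :
    (((∏ i, (X + C (ρ i)) : ℝ[X]).coeff j : ℝ) : ℂ) =
      (∏ i, (1 + C (ρ i : ℂ) * X) : ℂ[X]).coeff (d - j) := by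
  have e : (∏ i, (1 + C (ρ i : ℂ) * X) : ℂ[X]) =
      (∏ i, (1 + C (ρ i) * X) : ℝ[X]).map (algebraMap ℝ ℂ) := by
    simp [Polynomial.map_prod]
  rw [← refl_prod, coeff_reflect, revAt_le hj, e, coeff_map]
  rfl

theorem coeff_pow (d k : ℕ) (w : ℂ) :
    ((1 + C w * X) ^ d : ℂ[X]).coeff k = (d.choose k : ℂ) * w ^ k := by
  have e : ((1 + C w * X) ^ d : ℂ[X]) = ((1 + X) ^ d : ℂ[X]).comp (C w * X) := by simp
  rw [e, comp_C_mul_X_coeff, coeff_one_add_X_pow]

/-- The functional with prescribed values on the monomials. -/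
noncomputable def LL (d : ℕ) (c : ℕ → ℂ) : ℂ[X] →ₗ[ℂ] ℂ :=
  ∑ j ∈ Finset.range (d + 1), ((j.factorial : ℂ) * c j) • lcoeff ℂ (d - j)

theorem LL_apply (d : ℕ) (c : ℕ → ℂ) (q : ℂ[X]) :
    LL d c q = ∑ j ∈ Finset.range (d + 1), (j.factorial : ℂ) * c j * q.coeff (d - j) := by
  simp [LL, LinearMap.sum_apply]

theorem LL_pow (d : ℕ) (c : ℕ → ℂ) (w : ℂ) :
    LL d c ((1 + C w * X) ^ d) =
      ∑ j ∈ Finset.range (d + 1), (d.descFactorial j : ℂ) * c j * w ^ (d - j) := by
  rw [LL_apply]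
  refine Finset.sum_congr rfl fun j hj => ?_
  rw [coeff_pow, Nat.choose_symm (Nat.lt_succ_iff.1 (Finset.mem_range.1 hj)),
    Nat.descFactorial_eq_factorial_mul_choose]
  push_cast
  ring

end Uni

open MvPolynomial

variable {n m : ℕ}

theorem cev_pull {Φ : Fin n → Vc m} {e : Vc m} (hΦ : ∀ i, Φ i ⬝ᵥ e = 0) (α : Vc m) (τ : ℂ)
    (g : MP n) : cev α e τ (pull Φ g) = ((eval (fun i => Φ i ⬝ᵥ α) g : ℝ) : ℂ) := by
  rw [pull, comp_aeval_apply, ← aeval_ofReal]
  simp only [cev_lin _ _ _ _ (hΦ _)]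

theorem rp_iter (a u : Vc n) (f : MP n) (j : ℕ) :
    rp a u ((D u)^[j] f) = Polynomial.derivative^[j] (rp a u f) := by
  induction j with
  | zero => rfl
  | succ j ih => rw [Function.iterate_succ_apply', Function.iterate_succ_apply', rp_D, ih]

theorem eval_iter (a u : Vc n) (f : MP n) (j : ℕ) :
    eval a ((D u)^[j] f) = j.factorial * (rp a u f).coeff j := by
  rw [← rp_coeff0 a u, rp_iter, Polynomial.coeff_iterate_derivative, zero_add,
    Nat.descFactorial_self, nsmul_eq_mul]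

theorem rp_prod {u : Vc n} {d : ℕ} {f : MP n} (hf : f.IsHomogeneous d) (h : Hyp u f) (a : Vc n) :
    ∃ ρ : Fin d → ℝ,
      rp a u f = Polynomial.C (eval u f) * ∏ i, (Polynomial.X + Polynomial.C (ρ i)) := by
  obtain ⟨ρ, hρ⟩ := factor_plane hf h a
  refine ⟨ρ, Polynomial.funext fun r => ?_⟩
  have := hρ r 1
  rw [one_smul, add_comm] at this
  simp [eval_rp, this, Polynomial.eval_prod]

theorem cev_conj (α e : Vc m) (τ : ℂ) (F : MP m) :
    cev α e (starRingEnd ℂ τ) F = starRingEnd ℂ (cev α e τ F) := by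
  induction F using MvPolynomial.induction_on with
  | C a => simp [cev]
  | add p q hp hq => simp only [map_add, hp, hq]
  | mul_X p i hp =>
    simp only [map_mul, hp]
    simp [cev]

end RSuf

open MvPolynomial RSuf in
theorem sSuf (h : SGws) : SSuf := by
  intro n m d d' T u e f ⟨Φ, γ, hΦ, hT, hS⟩ hf hd hu
  have up : ∀ (α : Vc m) (τ : ℂ), 0 < τ.im → cev α e τ (T f) ≠ 0 := by
    intro α τ hτ
    obtain ⟨ρ, hρ⟩ := rp_prod hf hu fun i => Φ i ⬝ᵥ α
    have h1 := h d (LL d fun j => cev α e τ (γ j))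
      (fun w hw => by rw [LL_pow]; exact hS α τ w hτ hw) (fun i => (ρ i : ℂ)) (by simp)
    have h2 : ((eval u f : ℝ) : ℂ) ≠ 0 := by exact_mod_cast hu.1
    refine fun h0 => mul_ne_zero h2 h1 ?_
    rw [← h0, hT f hf, map_sum, LL_apply, Finset.mul_sum]
    refine Finset.sum_congr rfl fun j hj => ?_
    rw [map_mul, cev_pull hΦ, eval_iter, hρ, Polynomial.coeff_C_mul,
      ← coeff_prod (Nat.lt_succ_iff.1 (Finset.mem_range.1 hj))]
    push_cast
    ring
  refine ⟨fun h0 => up 0 Complex.I (by simp) ?_, fun α z hz => ?_⟩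
  · have := aeval_scale hd Complex.I fun i => (e i : ℂ)
    rw [aeval_ofReal, h0] at this
    simpa [cev] using this
  · rcases lt_trichotomy z.im 0 with h1 | h1 | h1
    · refine absurd ?_ (up α (starRingEnd ℂ z) (by simpa using h1))
      rw [cev_conj, show cev α e z (T f) = 0 from hz, map_zero]
    · exact h1
    · exact absurd hz (up α z h1)

end Pool.Agent.MP_3d209c_an.H69
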