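import Pool.Agent.MP_3d209c_an.H69.Spec

/-! The symbol has no zero in the upper half planes. -/

namespace Pool.Agent.MP_3d209c_an.H69

open MvPolynomial Pool.Agent.MP_3d209c_an.H71 Filter Topology

namespace RSym

/-- The linear map with `X ^ i ↦ A i`. -/
noncomputable def LL (A : ℕ → Polynomial ℂ) : Polynomial ℂ →ₗ[ℂ] Polynomial ℂ :=
  Polynomial.lsum fun i => LinearMap.toSpanSingleton ℂ _ (A i)

theorem LL_mon (A : ℕ → Polynomial ℂ) (i : ℕ) (a : ℂ) :
    LL A (Polynomial.monomial i a) = a • A i := by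
  rw [LL, Polynomial.lsum_apply, Polynomial.sum_monomial_index _ _ (by simp),
    LinearMap.toSpanSingleton_apply]

theorem LL_c0 {A : ℕ → Polynomial ℂ} (h : ∀ i, (A i).coeff 0 = if i = 0 then 1 else 0)
    (p : Polynomial ℂ) : (LL A p).coeff 0 = p.coeff 0 := by
  induction p using Polynomial.induction_on' with
  | add p q hp hq => simp only [map_add, Polynomial.coeff_add, hp, hq]
  | monomial i a => simp [LL_mon, h, Polynomial.coeff_monomial]

theorem LL_c1 {A : ℕ → Polynomial ℂ} (h : ∀ i, (A (i + 1)).coeff 1 = if i = 0 then 1 else 0)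
    (p : Polynomial ℂ) : (LL A (Polynomial.X * p)).coeff 1 = p.coeff 0 := by
  induction p using Polynomial.induction_on' with
  | add p q hp hq => simp only [mul_add, map_add, Polynomial.coeff_add, hp, hq]
  | monomial i a =>
    rw [Polynomial.X_mul_monomial, LL_mon]
    simp [h, Polynomial.coeff_monomial]

theorem LL_prod (A : ℕ → Polynomial ℂ) {d : ℕ} (ρ : Fin d → ℂ) :
    LL A (∏ i, (1 + Polynomial.C (ρ i) * Polynomial.X)) =
      ∑ t ∈ (Finset.univ : Finset (Fin d)).powerset, (∏ i ∈ t, ρ i) • A t.card := by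
  rw [Finset.prod_one_add, map_sum]
  refine Finset.sum_congr rfl fun t _ => ?_
  rw [Finset.prod_mul_distrib, Finset.prod_const, ← map_prod, Polynomial.C_mul_X_pow_eq_monomial,
    LL_mon]

theorem LL_pow (A : ℕ → Polynomial ℂ) (d : ℕ) (w : ℂ) :
    LL A ((1 + Polynomial.C w * Polynomial.X) ^ d) =
      ∑ j ∈ Finset.range (d + 1), ((d.choose j : ℂ) * w ^ j) • A j := by
  rw [add_comm 1, add_pow, map_sum]
  refine Finset.sum_congr rfl fun j _ => ?_
  rw [← LL_mon, ← Polynomial.C_mul_X_pow_eq_monomial, Polynomial.C_mul, Polynomial.C_pow,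
    Polynomial.C_eq_natCast]
  exact congrArg _ (by ring)

variable {n m : ℕ}

theorem hom_M (s y : Vc n) {d i : ℕ} (hi : i ≤ d) :
    (lin s ^ (d - i) * lin y ^ i).IsHomogeneous d := by
  have := (hom_pow s (d - i)).mul (hom_pow y i)
  rwa [Nat.sub_add_cancel hi] at this

theorem prod_eq (s y : Vc n) {d : ℕ} (ρ : Fin d → ℝ) : ∏ i, lin (s + ρ i • y) =
    ∑ t ∈ (Finset.univ : Finset (Fin d)).powerset,
      (∏ i ∈ t, ρ i) • (lin s ^ (d - t.card) * lin y ^ t.card) := by
  simp only [lin_add, lin_smul, add_comm (lin s)]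
  rw [Finset.prod_add]
  refine Finset.sum_congr rfl fun t _ => ?_
  rw [Finset.prod_smul, Finset.prod_const, Finset.prod_const, Finset.card_univ_sdiff,
    Fintype.card_fin, smul_mul_assoc, mul_comm]

theorem bound (h1 : SSt) (h2 : SBd) {k d' : ℕ} {T : MP n →ₗ[ℝ] MP m} {u s y : Vc n} {e : Vc m}
    (hR : Ray T (k + 1) d' u s e) (hF : Fl T k u s e) (hy : y ⬝ᵥ u = 0) (α : Vc m)
    (hα : grad e (T (lin y * lin s ^ k)) ⬝ᵥ α = 1) (τ w : ℂ) (hτ : 0 < τ.im) (hw : 0 ≤ w.im) :
    τ.im ^ d' ≤ ‖∑ j ∈ Finset.range (k + 1 + 1), ((k + 1).choose j : ℂ) *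
      cev α e τ (T (lin s ^ (k + 1 - j) * lin y ^ j)) * w ^ j‖ := by
  set P := pl (fun i => (e i : ℂ)) (fun i => (α i : ℂ)) with hP
  set A : ℕ → Polynomial ℂ :=
    fun i => if i ≤ k + 1 then P (T (lin s ^ (k + 1 - i) * lin y ^ i)) else 0 with hA
  have hA' : ∀ i ≤ k + 1, A i = P (T (lin s ^ (k + 1 - i) * lin y ^ i)) := fun i hi => if_pos hi
  have c0 : ∀ i, (A i).coeff 0 = if i = 0 then 1 else 0 := by
    intro i
    by_cases hi : i ≤ k + 1
    · rw [hA' i hi, hP, pl_eq, Polynomial.coeff_map, rp_coeff0, hR.ev _ (hom_M s y hi), map_mul,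
        map_pow, map_pow, eval_lin, eval_lin, hR.hs, hy, one_pow, one_mul, zero_pow_eq]
      split_ifs <;> simp
    · rw [show A i = 0 from if_neg hi, if_neg (by omega), Polynomial.coeff_zero]
  have c1 : ∀ i, (A (i + 1)).coeff 1 = if i = 0 then 1 else 0 := by
    intro i
    by_cases hi : i + 1 ≤ k + 1
    · rw [hA' _ hi, hP, pl_eq, Polynomial.coeff_map, rp_coeff1, Nat.add_sub_add_right, pow_succ',
        mul_left_comm, hF y hy _ (hom_M s y (by omega)), smul_dotProduct, hα, map_mul,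
        map_pow, map_pow, eval_lin, eval_lin, hR.hs, hy, one_pow, one_mul, zero_pow_eq]
      split_ifs <;> simp
    · rw [show A (i + 1) = 0 from if_neg hi, if_neg (by omega), Polynomial.coeff_zero]
  have h3 := h1 (k + 1) (LL A) (LL_c0 c0) (LL_c1 c1) fun ρ r hr h0 => by
    have hp := Pr.prod (N := NV {u}) (k + 1) (fun i => s + ρ i • y) fun i => by
      simp [mem_NV1, hR.hs, hy]
    have e1 : LL A (∏ i, (1 + Polynomial.C (ρ i : ℂ) * Polynomial.X)) =
        P (T (∏ i, lin (s + ρ i • y))) := by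
      rw [LL_prod, prod_eq, map_sum, map_sum]
      refine Finset.sum_congr rfl fun t _ => ?_
      rw [hA' _ ((Finset.card_le_univ t).trans (Fintype.card_fin _).le), map_smul, map_smul,
        ← Complex.ofReal_prod, Complex.coe_smul]
    have hr0 : r ≠ 0 := by
      rintro rfl
      simp at hr
    have e2 := cev_eq (e := e) (hR.hom _ hp.hom) α (inv_ne_zero hr0)
    rw [inv_inv, ← hP, ← e1, h0, mul_zero] at e2
    exact inv_im_ne_zero hr.ne ((hR.hyp _ hp).2 α r⁻¹ e2)
  have hτ0 : τ ≠ 0 := by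
    rintro rfl
    simp at hτ
  refine (h2 d' _ ?_ ?_ (fun r hr => h3 w r hw hr) τ hτ).trans (le_of_eq ?_)
  · rw [LL_pow]
    refine Polynomial.natDegree_sum_le_of_forall_le _ _ fun j hj => ?_
    have hj' := Nat.le_of_lt_succ (Finset.mem_range.1 hj)
    rw [hA' j hj']
    exact (Polynomial.natDegree_smul_le _ _).trans (natDegree_pl (hR.hom _ (hom_M s y hj')) _ _)
  · rw [LL_c0 c0, Polynomial.coeff_zero_eq_eval_zero]
    simp
  · rw [LL_pow, Polynomial.eval_finsetSum, Finset.mul_sum]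
    refine congrArg _ (Finset.sum_congr rfl fun j hj => ?_)
    have hj' := Nat.le_of_lt_succ (Finset.mem_range.1 hj)
    rw [hA' j hj', cev_eq (hR.hom _ (hom_M s y hj')) α hτ0, Polynomial.eval_smul, smul_eq_mul]
    ring

end RSym

theorem sSym (h1 : SSt) (h2 : SBd) : SSym := by
  intro n m k d' T u s y e h hR hF hy h0 hh α τ w hτ hw
  set lam := grad e (T (lin y * lin s ^ k)) with hlam
  have hle : lam ⬝ᵥ e = 0 := by
    have h3 := hom_lin_mul y (hom_pow s k)
    rw [hlam, grad_euler (hR.hom _ h3), hR.ev _ h3, map_mul, eval_lin, hy, zero_mul, mul_zero]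
  have key : ∀ α : Vc m, lam ⬝ᵥ α ≠ 0 → τ.im ^ d' ≤
      ‖∑ j ∈ Finset.range (k + 1 + 1), ((k + 1).choose j : ℂ) * cev α e τ (h j) * w ^ j‖ := by
    intro α hα
    refine (RSym.bound h1 h2 hR hF (y := (lam ⬝ᵥ α)⁻¹ • y) (by simp [hy]) α ?_ τ w hτ hw).trans
      (le_of_eq ?_)
    · rw [lin_smul, smul_mul_assoc, map_smul, map_smul, smul_dotProduct, smul_eq_mul,
        inv_mul_cancel₀ hα]
    · refine congrArg _ (Finset.sum_congr rfl fun j hj => ?_)
      have hα' : ((lam ⬝ᵥ α : ℝ) : ℂ) ≠ 0 := Complex.ofReal_ne_zero.2 hα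
      rw [lin_smul, smul_pow, mul_smul_comm, map_smul,
        hh j (Nat.le_of_lt_succ (Finset.mem_range.1 hj)), map_smul, map_mul, map_pow,
        cev_lin _ _ _ _ hle, Complex.real_smul, Complex.ofReal_pow, Complex.ofReal_inv,
        ← mul_assoc (_ ^ j), ← mul_pow, inv_mul_cancel₀ hα', one_pow, one_mul]
  have key2 : τ.im ^ d' ≤
      ‖∑ j ∈ Finset.range (k + 1 + 1), ((k + 1).choose j : ℂ) * cev α e τ (h j) * w ^ j‖ := by
    by_cases hα : lam ⬝ᵥ α = 0
    · have hc : Continuous fun ε : ℝ => ‖∑ j ∈ Finset.range (k + 1 + 1),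
          ((k + 1).choose j : ℂ) * cev (α + ε • lam) e τ (h j) * w ^ j‖ :=
        (continuous_finsetSum _ fun j _ => (continuous_const.mul
          ((continuous_cev e τ (h j)).comp (by fun_prop))).mul continuous_const).norm
      have ht := (hc.tendsto 0).mono_left (nhdsWithin_le_nhds (s := {0}ᶜ))
      rw [zero_smul, add_zero] at ht
      refine ge_of_tendsto ht (eventually_nhdsWithin_of_forall fun ε hε => key _ ?_)
      rw [dotProduct_add, hα, zero_add, dotProduct_smul, smul_eq_mul]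
      exact mul_ne_zero hε (mt dotProduct_self_eq_zero.1 h0)
    · exact key α hα
  intro hz
  rw [hz, norm_zero] at key2
  exact key2.not_gt (pow_pos hτ _)

end Pool.Agent.MP_3d209c_an.H69
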