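import Pool.Agent.MP_3d209c_an.H69.Kit

/-! Statements of the steps. -/

namespace Pool.Agent.MP_3d209c_an.H69

open Pool.Agent.MP_3d209c_an.H71

section Uni

open Polynomial

def SCoef : Prop := ∀ (d : ℕ) (ρ : Fin d → ℝ) (p : ℝ[X]), p = ∏ i, (1 + C (ρ i) * X) →
  p.coeff 1 = ∑ i, ρ i ∧ p.coeff 1 ^ 2 - 2 * p.coeff 2 = ∑ i, ρ i ^ 2

def SF1 : Prop := ∀ (d : ℕ) (P Q : ℝ[X]),
  (∀ r : ℝ, ∃ ρ : Fin d → ℝ, P + r • Q = ∏ i, (1 + C (ρ i) * X)) → Q.coeff 1 = 0 → Q = 0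

def SF2 : Prop := ∀ A B : ℂ[X], A.coeff 0 = 1 → B.coeff 0 = 0 → B.coeff 1 = 1 →
  (∀ (x : ℝ) (r : ℂ), r.im < 0 → A.eval r + x * B.eval r ≠ 0) →
  ∀ w r : ℂ, 0 ≤ w.im → r.im < 0 → A.eval r + w * B.eval r ≠ 0

def SBd : Prop := ∀ (d : ℕ) (p : ℂ[X]), p.natDegree ≤ d → p.coeff 0 = 1 →
  (∀ r : ℂ, r.im < 0 → p.eval r ≠ 0) → ∀ τ : ℂ, 0 < τ.im → τ.im ^ d ≤ ‖τ ^ d * p.eval τ⁻¹‖

/-- Coincidence theorem of Grace, Walsh and Szego for the closed upper half plane. -/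
def SGws : Prop := ∀ (d : ℕ) (L : ℂ[X] →ₗ[ℂ] ℂ),
  (∀ w : ℂ, 0 ≤ w.im → L ((1 + C w * X) ^ d) ≠ 0) →
  ∀ ζ : Fin d → ℂ, (∀ i, 0 ≤ (ζ i).im) → L (∏ i, (1 + C (ζ i) * X)) ≠ 0

def SSt : Prop := ∀ (d : ℕ) (L : ℂ[X] →ₗ[ℂ] ℂ[X]), (∀ p, (L p).coeff 0 = p.coeff 0) →
  (∀ p, (L (X * p)).coeff 1 = p.coeff 0) →
  (∀ (ρ : Fin d → ℝ) (r : ℂ), r.im < 0 → (L (∏ i, (1 + C (ρ i : ℂ) * X))).eval r ≠ 0) →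
  ∀ w r : ℂ, 0 ≤ w.im → r.im < 0 → (L ((1 + C w * X) ^ d)).eval r ≠ 0

end Uni

open MvPolynomial

def SDense : Prop := ∀ (n : ℕ) (V : Set (Vc n)), Thin V → 0 ∉ V → Dense (NV V)

def SDich : Prop := ∀ (n m k : ℕ) (V : Set (Vc n)) (lam : MP n →ₗ[ℝ] ℝ) (T : MP n →ₗ[ℝ] MP m),
  Thin V → 0 ∉ V → (∀ g, Pr (NV V) (k + 1) g → lam g = 0 → T g = 0) →
  (∃ f₀, Pr (NV V) (k + 1) f₀ ∧ ∀ f, f.IsHomogeneous (k + 1) → ∃ c : ℝ, T f = c • T f₀) ∨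
    ∃ u ∈ V, ∃ c : ℝ, c ≠ 0 ∧ ∀ f, f.IsHomogeneous (k + 1) → lam f = c * eval u f

def SGraded : Prop := ∀ (n m d : ℕ) (N : Set (Vc n)) (T : MP n →ₗ[ℝ] MP m), Dense N →
  (∀ g, Pr N d g → ∃ j, (T g).IsHomogeneous j) → Graded T d

def SKern : Prop := ∀ (n m k d' : ℕ) (T : MP n →ₗ[ℝ] MP m) (u s l : Vc n) (e z : Vc m) (g : MP n),
  Ray T (k + 1) d' u s e → l ⬝ᵥ u = 0 → Pr (NV {u}) k g → grad e (T (lin l * g)) ⬝ᵥ z = 0 →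
  eval z (T (lin l * g)) = 0

def SDiv0 : Prop := ∀ (m : ℕ) (v : Vc m) (H : MP m), v ≠ 0 →
  (∀ z, v ⬝ᵥ z = 0 → eval z H = 0) → lin v ∣ H

def SDivJ : Prop := ∀ (m j : ℕ) (v a : Vc m) (H : MP m), v ⬝ᵥ a = 1 →
  (∀ z, v ⬝ᵥ z = 0 → ∃ B : ℝ, ∀ ρ ∈ Set.Ioc (0 : ℝ) 1, |eval (z + ρ • a) H| ≤ B * ρ ^ j) →
  lin v ^ j ∣ H

/-- The fibrewise form of the pencil case. -/
def SFib : Prop := ∀ (n m k d' : ℕ) (T : MP n →ₗ[ℝ] MP m) (u s m₁ m₂ l : Vc n) (e z : Vc m),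
  Ray T (k + 2) d' u s e → m₁ ⬝ᵥ u = 0 → m₂ ⬝ᵥ u = 0 →
  grad e (T (lin m₁ * (lin m₂ * lin l ^ k))) ⬝ᵥ z ≠ 0 →
  ∃ q : ℝ, ∀ f, f.IsHomogeneous (k + 2) → eval u f = 0 → eval z (T f) = q * (grad e (T f) ⬝ᵥ z)

def SPen : Prop := ∀ (n m k d' : ℕ) (T : MP n →ₗ[ℝ] MP m) (u s m₁ m₂ l : Vc n) (e : Vc m),
  Ray T (k + 2) d' u s e → m₁ ⬝ᵥ u = 0 → m₂ ⬝ᵥ u = 0 →
  grad e (T (lin m₁ * (lin m₂ * lin l ^ k))) ≠ 0 → Pencil T (k + 2) u e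

/-- The gradient of `T f` at `e` depends on the first order jet of `f` at `u`. -/
def Fl {n m : ℕ} (T : MP n →ₗ[ℝ] MP m) (k : ℕ) (u s : Vc n) (e : Vc m) : Prop :=
  ∀ l, l ⬝ᵥ u = 0 → ∀ g : MP n, g.IsHomogeneous k →
    grad e (T (lin l * g)) = eval u g • grad e (T (lin l * lin s ^ k))

def SK : Prop := ∀ (n m k d' : ℕ) (T : MP n →ₗ[ℝ] MP m) (u s l : Vc n) (e z : Vc m) (g : MP n),
  Ray T (k + 1) d' u s e → Fl T k u s e → l ⬝ᵥ u = 0 →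
  grad e (T (lin l * lin s ^ k)) ⬝ᵥ z = 0 → g.IsHomogeneous k → eval z (T (lin l * g)) = 0

/-- Bounds near the hyperplane where the gradient form vanishes. -/
def SBnd : Prop := ∀ (n m k d' : ℕ) (T : MP n →ₗ[ℝ] MP m) (u s y : Vc n) (e a z : Vc m),
  Ray T (k + 1) d' u s e → Fl T k u s e → y ⬝ᵥ u = 0 →
  grad e (T (lin y * lin s ^ k)) ⬝ᵥ a = 1 → grad e (T (lin y * lin s ^ k)) ⬝ᵥ z = 0 →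
  ∀ j ≤ k + 1, ∃ B : ℝ, ∀ ρ ∈ Set.Ioc (0 : ℝ) 1,
    |eval (z + ρ • a) (T (lin s ^ (k + 1 - j) * lin (s + ρ⁻¹ • y) ^ j))| ≤ B

def SDiv : Prop := ∀ (n m k d' : ℕ) (T : MP n →ₗ[ℝ] MP m) (u s y : Vc n) (e : Vc m),
  Ray T (k + 1) d' u s e → Fl T k u s e → y ⬝ᵥ u = 0 → grad e (T (lin y * lin s ^ k)) ≠ 0 →
  ∀ j ≤ k + 1, lin (grad e (T (lin y * lin s ^ k))) ^ j ∣ T (lin s ^ (k + 1 - j) * lin y ^ j)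

def SRep : Prop := ∀ (n m k d' : ℕ) (T : MP n →ₗ[ℝ] MP m) (u s y : Vc n) (e : Vc m)
  (h : ℕ → MP m), Ray T (k + 1) d' u s e → Fl T k u s e → y ⬝ᵥ u = 0 →
  grad e (T (lin y * lin s ^ k)) ≠ 0 →
  (∀ j ≤ k + 1, T (lin s ^ (k + 1 - j) * lin y ^ j)
    = lin (grad e (T (lin y * lin s ^ k))) ^ j * h j) →
  ∀ f, f.IsHomogeneous (k + 1) → T f = ∑ j ∈ Finset.range (k + 1 + 1),
    ((j.factorial : ℝ)⁻¹ • h (k + 1 - j)) *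
      pull (fun i => grad e (T (lin (Pi.single i 1 - u i • s) * lin s ^ k))) ((D u)^[j] f)

def SSym : Prop := ∀ (n m k d' : ℕ) (T : MP n →ₗ[ℝ] MP m) (u s y : Vc n) (e : Vc m)
  (h : ℕ → MP m), Ray T (k + 1) d' u s e → Fl T k u s e → y ⬝ᵥ u = 0 →
  grad e (T (lin y * lin s ^ k)) ≠ 0 →
  (∀ j ≤ k + 1, T (lin s ^ (k + 1 - j) * lin y ^ j)
    = lin (grad e (T (lin y * lin s ^ k))) ^ j * h j) →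
  ∀ (α : Vc m) (τ w : ℂ), 0 < τ.im → 0 ≤ w.im →
    ∑ j ∈ Finset.range (k + 1 + 1), ((k + 1).choose j : ℂ) * cev α e τ (h j) * w ^ j ≠ 0

def SSuf : Prop := ∀ (n m d d' : ℕ) (T : MP n →ₗ[ℝ] MP m) (u : Vc n) (e : Vc m) (f : MP n),
  Symbol T d u e → f.IsHomogeneous d → (T f).IsHomogeneous d' → Hyp u f → Hyp e (T f)

end Pool.Agent.MP_3d209c_an.H69
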